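import Pool.Agent.T2H15.QR.Exist

/-! The composition of a quasirandom colouring with an arbitrary one. -/

set_option autoImplicit false

namespace Pool.Agent.T2H15.QR

open Finset

variable {V₁ V₂ κ : Type} [LinearOrder V₁] [DecidableEq V₂]

/-- the lowest part met by `e` contains two elements of `e` -/
def Low (e : Finset (V₁ × V₂)) : Prop :=
  ∃ p ∈ e, ∃ p' ∈ e, p ≠ p' ∧ p.1 = p'.1 ∧ ∀ z ∈ e, p.1 ≤ z.1

open Classical in
/-- The composition: transversal sets are coloured by `D`, sets in one part by `c`. -/
noncomputable def comp (s : ℕ) (D : Finset V₁ → κ) (c : Finset V₂ → κ) (a b : κ)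
    (e : Finset (V₁ × V₂)) : κ :=
  if (e.image Prod.fst).card = s + 1 then D (e.image Prod.fst)
  else if (e.image Prod.fst).card = 1 then c (e.image Prod.snd)
  else if Low e then a else b

theorem comp_transversal {s : ℕ} {D : Finset V₁ → κ} {c : Finset V₂ → κ} {a b : κ}
    {e : Finset (V₁ × V₂)} (h : (e.image Prod.fst).card = s + 1) :
    comp s D c a b e = D (e.image Prod.fst) := by
  unfold comp
  rw [if_pos h]

theorem comp_part {s : ℕ} (hs : 2 ≤ s) {D : Finset V₁ → κ} {c : Finset V₂ → κ} {a b : κ}
    {e : Finset (V₁ × V₂)} (h : (e.image Prod.fst).card = 1) :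
    comp s D c a b e = c (e.image Prod.snd) := by
  unfold comp
  rw [if_neg (by omega), if_pos h]

theorem comp_low {s : ℕ} (hs : 2 ≤ s) {D : Finset V₁ → κ} {c : Finset V₂ → κ} {a b : κ}
    {e : Finset (V₁ × V₂)} (h : (e.image Prod.fst).card = 2) (hl : Low e) :
    comp s D c a b e = a := by
  unfold comp
  rw [if_neg (by omega), if_neg (by omega), if_pos hl]

theorem comp_not_low {s : ℕ} (hs : 2 ≤ s) {D : Finset V₁ → κ} {c : Finset V₂ → κ} {a b : κ}
    {e : Finset (V₁ × V₂)} (h : (e.image Prod.fst).card = 2) (hl : ¬ Low e) :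
    comp s D c a b e = b := by
  unfold comp
  rw [if_neg (by omega), if_neg (by omega), if_neg hl]

/-- counting tuples in a product -/
theorem cnt_prod {V₁ V₂ : Type} [Fintype V₁] [Fintype V₂] {s : ℕ} (P : (Fin s → V₁ × V₂) → Prop) :
    cnt P = ∑ m : Fin s → V₂, cnt fun i : Fin s → V₁ => P fun j => (i j, m j) := by
  classical
  rw [cnt_fiber (fun x : Fin s → V₁ × V₂ => fun j => (x j).2) P]
  apply sum_congr rfl
  intro m _
  rw [cnt_eq, cnt_eq]
  refine card_bij (fun x _ => fun j => (x j).1) ?_ ?_ ?_
  · intro x hx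
    rw [mem_filter] at hx ⊢
    refine ⟨mem_univ _, ?_⟩
    have h1 : (fun j => ((x j).1, m j)) = x := by
      funext j
      rw [← hx.2.2]
    rw [h1]
    exact hx.2.1
  · intro x hx y hy h
    rw [mem_filter] at hx hy
    funext j
    refine Prod.ext (congrFun h j) ?_
    rw [show (x j).2 = m j from congrFun hx.2.2 j, show (y j).2 = m j from congrFun hy.2.2 j]
  · intro i hi
    rw [mem_filter] at hi
    exact ⟨fun j => (i j, m j), mem_filter.2 ⟨mem_univ _, hi.2, rfl⟩, rfl⟩

/-- The composition is as quasirandom as `D`. -/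
theorem rich_comp [Fintype V₁] [Fintype V₂] {s : ℕ} {D : Finset V₁ → κ}
    {c : Finset V₂ → κ} {a b : κ} {i : κ} {α η : ℝ} (h : Rich (Col s D i) α η) :
    Rich (Col s (comp s D c a b) i) α η := by
  classical
  intro T
  set T' : (Fin (s + 1) → V₂) → Fin (s + 1) → (Fin s → V₁) → Prop := fun m j u =>
    T j (fun l => (u l, j.removeNth m l)) with hT'
  have h1 : ∀ m : Fin (s + 1) → V₂, ∀ i' : Fin (s + 1) → V₁,
      Cyl T (fun j => (i' j, m j)) ↔ Cyl (T' m) i' := fun m i' => Iff.rfl
  have h2 : (cnt (Cyl T) : ℝ) = ∑ m : Fin (s + 1) → V₂, (cnt (Cyl (T' m)) : ℝ) := by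
    rw [cnt_prod]
    push_cast
    rfl
  have h3 : ∑ m : Fin (s + 1) → V₂, (cnt (fun i' => Cyl (T' m) i' ∧ Col s D i i') : ℝ) ≤
      cnt (fun x => Cyl T x ∧ Col s (comp s D c a b) i x) := by
    rw [cnt_prod]
    push_cast
    apply sum_le_sum
    intro m _
    have : cnt (fun i' => Cyl (T' m) i' ∧ Col s D i i') ≤
        cnt (fun i' => Cyl T (fun j => (i' j, m j)) ∧
          Col s (comp s D c a b) i (fun j => (i' j, m j))) := by
      apply cnt_mono
      rintro i' ⟨h4, h5, h6⟩
      refine ⟨(h1 m i').2 h4, fun x y hxy => h5 (congrArg Prod.fst hxy), ?_⟩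
      have h7 : (univ.image fun j => (i' j, m j)).image Prod.fst = univ.image i' := by
        rw [image_image]
        rfl
      rw [comp_transversal]
      · rw [h7, h6]
      · rw [h7, card_image_of_injective _ h5, card_univ, Fintype.card_fin]
    exact_mod_cast this
  refine le_trans ?_ h3
  rw [h2, Fintype.card_prod]
  have h4 : ∑ m : Fin (s + 1) → V₂, (α * (cnt (Cyl (T' m)) : ℝ) -
      η * (Fintype.card V₁ : ℝ) ^ (s + 1)) ≤
      ∑ m : Fin (s + 1) → V₂, (cnt (fun i' => Cyl (T' m) i' ∧ Col s D i i') : ℝ) :=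
    sum_le_sum fun m _ => h (T' m)
  refine le_trans (le_of_eq ?_) h4
  rw [sum_sub_distrib, ← mul_sum, sum_const, card_univ, Fintype.card_fun, Fintype.card_fin,
    nsmul_eq_mul]
  push_cast
  ring

theorem Hom.mono {V κ : Type} {r : ℕ} {c : Finset V → κ} {S S' : Finset V} (h : Hom r c S)
    (hS : S' ⊆ S) : Hom r c S' :=
  fun A hA B hB => h A (hA.trans hS) B (hB.trans hS)

/-- The homogeneous sets of the composition are small. -/
theorem hom_comp {s : ℕ} (hs : 2 ≤ s) {D : Finset V₁ → κ}
    {c : Finset V₂ → κ} {a b : κ} (hab : a ≠ b) {n A : ℕ}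
    (hD : ∀ P : Finset V₁, P.card = A → ¬ Hom (s + 1) D P)
    (hc : ∀ S : Finset V₂, S.card = n → ¬ Hom (s + 1) c S)
    (S : Finset (V₁ × V₂)) (hS : Hom (s + 1) (comp s D c a b) S) :
    S.card < n + (s + 1) * A := by
  classical
  have hA : 1 ≤ A := by
    rcases Nat.eq_zero_or_pos A with h | h
    · exfalso
      refine hD ∅ (by rw [card_empty, h]) ?_
      intro B hB _ _ hBc
      rw [subset_empty.1 hB, card_empty] at hBc
      omega
    · exact h
  -- few parts
  have h1 : (S.image Prod.fst).card < A := by
    by_contra hcon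
    obtain ⟨P, hP, hPc⟩ := exists_subset_card_eq (s := S.image Prod.fst) (n := A) (by omega)
    have hex : ∀ p : V₁, ∃ z : V₁ × V₂, p ∈ P → (z ∈ S ∧ z.1 = p) := by
      intro p
      by_cases hp : p ∈ P
      · obtain ⟨z, hz, hzp⟩ := mem_image.1 (hP hp)
        exact ⟨z, fun _ => ⟨hz, hzp⟩⟩
      · have : Nonempty (V₁ × V₂) := by
          have hne : P.Nonempty := card_pos.1 (by omega)
          obtain ⟨p', hp'⟩ := hne
          obtain ⟨z, _, _⟩ := mem_image.1 (hP hp')
          exact ⟨z⟩
        exact ⟨Classical.choice this, fun h => absurd h hp⟩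
    choose g hg using hex
    refine hD P hPc ?_
    have key : ∀ B ⊆ P, B.card = s + 1 → comp s D c a b (B.image g) = D B := by
      intro B hB hBc
      have h2 : (B.image g).image Prod.fst = B := by
        rw [image_image]
        ext p
        rw [mem_image]
        constructor
        · rintro ⟨p', hp', rfl⟩
          show (g p').1 ∈ B
          rw [(hg p' (hB hp')).2]
          exact hp'
        · intro hp
          exact ⟨p, hp, (hg p (hB hp)).2⟩
      rw [comp_transversal (by rw [h2, hBc]), h2]
    have hinj : Set.InjOn g P := by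
      intro p hp p' hp' h
      rw [← (hg p hp).2, ← (hg p' hp').2, h]
    intro B hB B' hB' hBc hBc'
    rw [← key B hB hBc, ← key B' hB' hBc']
    apply hS
    · intro z hz
      obtain ⟨p, hp, rfl⟩ := mem_image.1 hz
      exact (hg p (hB hp)).1
    · intro z hz
      obtain ⟨p, hp, rfl⟩ := mem_image.1 hz
      exact (hg p (hB' hp)).1
    · rw [card_image_of_injOn (fun p hp p' hp' h => hinj (hB hp) (hB hp') h), hBc]
    · rw [card_image_of_injOn (fun p hp p' hp' h => hinj (hB' hp) (hB' hp') h), hBc']
  -- every fibre is small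
  have h2 : ∀ p : V₁, (S.filter fun z => z.1 = p).card < n := by
    intro p
    by_contra hcon
    set F := S.filter fun z => z.1 = p with hF
    have hFi : Set.InjOn Prod.snd (F : Set (V₁ × V₂)) := by
      intro z hz z' hz' h
      have e1 := (mem_filter.1 (mem_coe.1 hz)).2
      have e2 := (mem_filter.1 (mem_coe.1 hz')).2
      exact Prod.ext (e1.trans e2.symm) h
    obtain ⟨Q, hQ, hQc⟩ := exists_subset_card_eq (s := F.image Prod.snd) (n := n)
      (by rw [card_image_of_injOn hFi]; omega)
    refine hc Q hQc ?_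
    have key : ∀ B ⊆ Q, B.card = s + 1 →
        comp s D c a b (B.image fun v => (p, v)) = c B := by
      intro B hB hBc
      have e1 : (B.image fun v => (p, v)).image Prod.fst = {p} := by
        rw [image_image]
        ext p'
        rw [mem_image, mem_singleton]
        constructor
        · rintro ⟨v, _, rfl⟩
          rfl
        · rintro rfl
          obtain ⟨v, hv⟩ : B.Nonempty := card_pos.1 (by omega)
          exact ⟨v, hv, rfl⟩
      have e2 : (B.image fun v => (p, v)).image Prod.snd = B := by
        rw [image_image]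
        ext v
        rw [mem_image]
        constructor
        · rintro ⟨v', hv', rfl⟩
          exact hv'
        · intro hv
          exact ⟨v, hv, rfl⟩
      rw [comp_part hs (by rw [e1, card_singleton]), e2]
    have hsub : ∀ B ⊆ Q, (B.image fun v => (p, v)) ⊆ S := by
      intro B hB z hz
      obtain ⟨v, hv, rfl⟩ := mem_image.1 hz
      obtain ⟨z', hz', hv'⟩ := mem_image.1 (hQ (hB hv))
      have e1 := mem_filter.1 hz'
      have : z' = (p, v) := Prod.ext e1.2 hv'
      rw [← this]
      exact e1.1
    have hcard : ∀ B : Finset V₂, (B.image fun v => (p, v)).card = B.card := by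
      intro B
      apply card_image_of_injective
      intro v v' h
      exact congrArg Prod.snd h
    intro B hB B' hB' hBc hBc'
    rw [← key B hB hBc, ← key B' hB' hBc']
    exact hS _ (hsub B hB) _ (hsub B' hB') (by rw [hcard, hBc]) (by rw [hcard, hBc'])
  -- at most one fibre is large
  have h3 : ∀ p p' : V₁, p < p' → ¬ (s ≤ (S.filter fun z => z.1 = p).card ∧
      s ≤ (S.filter fun z => z.1 = p').card) := by
    rintro p p' hpp ⟨hp, hp'⟩
    obtain ⟨F, hF, hFc⟩ := exists_subset_card_eq hp
    obtain ⟨F', hF', hFc'⟩ := exists_subset_card_eq hp'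
    have mF : ∀ z ∈ F, z ∈ S ∧ z.1 = p := fun z hz => mem_filter.1 (hF hz)
    have mF' : ∀ z ∈ F', z ∈ S ∧ z.1 = p' := fun z hz => mem_filter.1 (hF' hz)
    obtain ⟨x, hx⟩ : F.Nonempty := card_pos.1 (by omega)
    obtain ⟨x', hx'⟩ : F'.Nonempty := card_pos.1 (by omega)
    have hxF' : x ∉ F' := fun h => by
      have e1 := (mF x hx).2
      have e2 := (mF' x h).2
      exact absurd (e1.symm.trans e2) (ne_of_lt hpp)
    have hx'F : x' ∉ F := fun h => by
      have e1 := (mF x' h).2
      have e2 := (mF' x' hx').2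
      exact absurd (e1.symm.trans e2) (ne_of_lt hpp)
    have hi1 : (insert x' F).image Prod.fst = {p, p'} := by
      ext y
      rw [mem_image, mem_insert, mem_singleton]
      constructor
      · rintro ⟨z, hz, rfl⟩
        rcases mem_insert.1 hz with rfl | hz
        · exact Or.inr (mF' _ hx').2
        · exact Or.inl (mF z hz).2
      · rintro (rfl | rfl)
        · exact ⟨x, mem_insert_of_mem hx, (mF x hx).2⟩
        · exact ⟨x', mem_insert_self _ _, (mF' x' hx').2⟩
    have hi2 : (insert x F').image Prod.fst = {p, p'} := by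
      ext y
      rw [mem_image, mem_insert, mem_singleton]
      constructor
      · rintro ⟨z, hz, rfl⟩
        rcases mem_insert.1 hz with rfl | hz
        · exact Or.inl (mF _ hx).2
        · exact Or.inr (mF' z hz).2
      · rintro (rfl | rfl)
        · exact ⟨x, mem_insert_self _ _, (mF x hx).2⟩
        · exact ⟨x', mem_insert_of_mem hx', (mF' x' hx').2⟩
    have hlow : Low (insert x' F) := by
      obtain ⟨y, hy, hyx⟩ := exists_mem_ne (s := F) (by omega) x
      refine ⟨x, mem_insert_of_mem hx, y, mem_insert_of_mem hy, fun h => hyx h.symm, ?_, ?_⟩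
      · rw [(mF x hx).2, (mF y hy).2]
      · intro z hz
        rw [(mF x hx).2]
        rcases mem_insert.1 hz with rfl | hz
        · rw [(mF' _ hx').2]
          exact hpp.le
        · rw [(mF z hz).2]
    have hnlow : ¬ Low (insert x F') := by
      rintro ⟨u, hu, u', hu', huu, h4, h5⟩
      have h6 : u.1 = p := by
        have h7 := h5 x (mem_insert_self _ _)
        rw [(mF x hx).2] at h7
        rcases mem_insert.1 hu with rfl | hu
        · exact (mF _ hx).2
        · rw [(mF' u hu).2] at h7
          exact absurd h7 (not_le.2 hpp)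
      have h7 : u = x := by
        rcases mem_insert.1 hu with h8 | h8
        · exact h8
        · exact absurd ((mF' u h8).2.symm.trans h6) (ne_of_gt hpp)
      have h8 : u' = x := by
        rcases mem_insert.1 hu' with h9 | h9
        · exact h9
        · exact absurd ((mF' u' h9).2.symm.trans (h4.symm.trans h6)) (ne_of_gt hpp)
      exact huu (h7.trans h8.symm)
    have hc1 : (({p, p'} : Finset V₁)).card = 2 := card_pair (ne_of_lt hpp)
    have h4 := hS (insert x' F) (by
      intro z hz
      rcases mem_insert.1 hz with rfl | hz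
      · exact (mF' _ hx').1
      · exact (mF z hz).1) (insert x F') (by
      intro z hz
      rcases mem_insert.1 hz with rfl | hz
      · exact (mF _ hx).1
      · exact (mF' z hz).1) (by rw [card_insert_of_notMem hx'F, hFc])
      (by rw [card_insert_of_notMem hxF', hFc'])
    rw [comp_low hs (by rw [hi1, hc1]) hlow, comp_not_low hs (by rw [hi2, hc1]) hnlow] at h4
    exact hab h4
  -- the count
  have h4 : S.card = ∑ p ∈ S.image Prod.fst, (S.filter fun z => z.1 = p).card :=
    card_eq_sum_card_image _ _
  by_cases hex : ∃ p₀, s ≤ (S.filter fun z => z.1 = p₀).card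
  · obtain ⟨p₀, hp₀⟩ := hex
    have h5 : ∀ p ∈ S.image Prod.fst, (S.filter fun z => z.1 = p).card ≤
        s + if p = p₀ then n else 0 := by
      intro p _
      rcases lt_trichotomy p p₀ with h | h | h
      · rw [if_neg (ne_of_lt h)]
        have := h3 p p₀ h
        omega
      · rw [if_pos h]
        have := h2 p
        omega
      · rw [if_neg (ne_of_gt h)]
        have := h3 p₀ p h
        omega
    have h6 := sum_le_sum h5
    rw [sum_add_distrib, sum_const, smul_eq_mul, ← h4] at h6
    have h7 : (∑ p ∈ S.image Prod.fst, if p = p₀ then n else 0) ≤ n := by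
      rw [sum_ite_eq']
      split_ifs
      · exact le_rfl
      · exact Nat.zero_le _
    have h8 : (S.image Prod.fst).card * s ≤ (A - 1) * s := Nat.mul_le_mul_right _ (by omega)
    have h9 : (A - 1) * s < (s + 1) * A := by
      obtain ⟨A', rfl⟩ : ∃ A', A = A' + 1 := ⟨A - 1, by omega⟩
      rw [Nat.add_sub_cancel]
      nlinarith
    omega
  · push Not at hex
    have h5 : ∀ p ∈ S.image Prod.fst, (S.filter fun z => z.1 = p).card ≤ s :=
      fun p _ => (hex p).le
    have h6 := sum_le_sum h5
    rw [sum_const, smul_eq_mul, ← h4] at h6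
    have h8 : (S.image Prod.fst).card * s ≤ (A - 1) * s := Nat.mul_le_mul_right _ (by omega)
    have h9 : (A - 1) * s < (s + 1) * A := by
      obtain ⟨A', rfl⟩ : ∃ A', A = A' + 1 := ⟨A - 1, by omega⟩
      rw [Nat.add_sub_cancel]
      nlinarith
    omega

end Pool.Agent.T2H15.QR
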