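import Pool.Agent.T2H15.QR.Step

/-! Embedding all patterns. -/

set_option autoImplicit false

namespace Pool.Agent.T2H15.QR

open Finset

variable {V : Type} [Fintype V]

/-- A system of conditions: a relation on `V` for every increasing tuple of positions. -/
abbrev Sys (V : Type) := (s : ℕ) → (Fin (s + 1) → ℕ) → (Fin (s + 1) → V) → Prop

/-- the system after the choice of the vertex `x` for position `0` -/
def Sys.next (E : Sys V) (R : ℕ) (x : V) : Sys V := fun s J w =>
  E s (fun a => J a + 1) w ∧ (s < R → E (s + 1) (Fin.cons 0 (fun a => J a + 1)) (Fin.cons x w))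

/-- the system is rich at stage `i`, for positions below `n` -/
def RichSys (E : Sys V) (R n i : ℕ) (p η lam : ℝ) : Prop :=
  ∀ s ≤ R, ∀ J : Fin (s + 1) → ℕ, StrictMono J → (∀ a, J a < n) →
    Rich (E s J) (p ^ (i.choose (R - s))) (η * ((1 + i) / lam) ^ (R - s))

theorem strictMono_cons {s : ℕ} {J : Fin (s + 1) → ℕ} (hJ : StrictMono J) :
    StrictMono (Fin.cons 0 (fun a => J a + 1) : Fin (s + 2) → ℕ) := by
  intro a b hab
  induction a using Fin.cases with
  | zero =>
    induction b using Fin.cases with
    | zero => exact absurd hab (lt_irrefl _)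
    | succ b => simp
  | succ a =>
    induction b using Fin.cases with
    | zero => exact absurd hab (Fin.not_lt_zero _)
    | succ b =>
      simp only [Fin.cons_succ]
      have := hJ (Fin.succ_lt_succ_iff.1 hab)
      omega

theorem exists_vertex (E : Sys V) (R m n i : ℕ) (p η lam : ℝ) (hp0 : 0 < p) (hp1 : p ≤ 1)
    (hη : 0 < η) (hlam : 0 < lam) (hn : n + 1 + i ≤ m)
    (hnum : ∀ i < m, (R : ℝ) * (m : ℝ) ^ R * lam + η * ((1 + i) / lam) ^ R < p ^ (i.choose R))
    (hV : 0 < Fintype.card V)
    (hE : RichSys E R (n + 1) i p η lam) :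
    ∃ x : V, E 0 (fun _ => 0) (fun _ => x) ∧ RichSys (E.next R x) R n (i + 1) p η lam := by
  classical
  have hN : (0 : ℝ) < (Fintype.card V : ℝ) := by exact_mod_cast hV
  have hm : 1 ≤ m := by omega
  have hm' : (1 : ℝ) ≤ (m : ℝ) := by exact_mod_cast hm
  -- the good set
  set G : Finset V := univ.filter fun x => E 0 (fun _ => 0) (fun _ => x) with hG
  have hGcard : p ^ (i.choose R) * Fintype.card V - η * ((1 + i) / lam) ^ R * Fintype.card V
      ≤ G.card := by
    have h := hE 0 (Nat.zero_le _) (fun _ => 0) (by
      intro a b hab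
      have h1 := a.2
      have h2 := b.2
      rw [Fin.lt_def] at hab
      omega) (by intro a; omega)
      (fun _ _ => True)
    have h1 : (cnt (Cyl (fun (_ : Fin 1) (_ : Fin 0 → V) => True)) : ℝ) = Fintype.card V := by
      unfold cnt
      have : (univ.filter (Cyl (fun (_ : Fin 1) (_ : Fin 0 → V) => True))) = univ := by
        rw [filter_true_of_mem]
        intro x _ j
        trivial
      rw [this, card_univ, Fintype.card_fun, Fintype.card_fin, pow_one]
    have h2 : cnt (fun x : Fin 1 → V => Cyl (fun (_ : Fin 1) (_ : Fin 0 → V) => True) x ∧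
        E 0 (fun _ => 0) x) = G.card := by
      unfold cnt
      rw [hG]
      refine card_bij (fun x _ => x 0) ?_ ?_ ?_
      · intro x hx
        simp only [mem_filter, mem_univ, true_and] at hx ⊢
        have : x = fun _ => x 0 := by
          funext j
          rw [Subsingleton.elim j 0]
        rw [← this]
        exact hx.2
      · intro x _ y _ h
        funext j
        rw [Subsingleton.elim j 0]
        exact h
      · intro x hx
        simp only [mem_filter, mem_univ, true_and] at hx
        refine ⟨fun _ => x, ?_, rfl⟩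
        simp only [mem_filter, mem_univ, true_and]
        exact ⟨fun _ => trivial, hx⟩
    rw [h1, h2] at h
    simpa using h
  -- the bad sets
  let bad : (s : ℕ) → (Fin (s + 1) → ℕ) → Finset V := fun s J => univ.filter fun x =>
    ¬ Rich (E.next R x s J) (p ^ ((i + 1).choose (R - s)))
      (η * ((1 + ((i + 1 : ℕ) : ℝ)) / lam) ^ (R - s))
  have hbad : ∀ s, s < R → ∀ J : Fin (s + 1) → ℕ, StrictMono J → (∀ a, J a < n) →
      ((bad s J).card : ℝ) ≤ lam * Fintype.card V := by
    intro s hs J hJ hJn
    obtain ⟨e, he⟩ : ∃ e, R - s = e + 1 := ⟨R - s - 1, by omega⟩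
    have he' : R - (s + 1) = e := by omega
    have hJ1 : StrictMono (fun a => J a + 1) := fun a b hab => Nat.add_lt_add_right (hJ hab) 1
    have h₁ := hE s hs.le (fun a => J a + 1) hJ1 (fun a => Nat.add_lt_add_right (hJn a) 1)
    have h₂ := hE (s + 1) hs (Fin.cons 0 (fun a => J a + 1)) (strictMono_cons hJ) (by
      intro a
      refine Fin.cases ?_ (fun a => ?_) a
      · simp
      · simp only [Fin.cons_succ]
        exact Nat.add_lt_add_right (hJn a) 1)
    rw [he] at h₁
    rw [he'] at h₂
    have hbase : (0 : ℝ) ≤ (1 + (i : ℝ)) / lam := by positivity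
    refine step h₁ h₂ (by positivity) (pow_le_one₀ hp0.le hp1) (by positivity)
      (by positivity) hlam (bad s J) ?_
    intro x hx hR
    refine (mem_filter.1 hx).2 ?_
    have h3 : Rich (E.next R x s J) (p ^ (i.choose (e + 1)) * p ^ (i.choose e))
        (η * ((1 + (i : ℝ)) / lam) ^ (e + 1) + η * ((1 + (i : ℝ)) / lam) ^ e / lam) := by
      have : E.next R x s J = fun w => E s (fun a => J a + 1) w ∧
          E (s + 1) (Fin.cons 0 (fun a => J a + 1)) (Fin.cons x w) := by
        funext w
        unfold Sys.next
        simp [hs]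
      rw [this]
      exact hR
    rw [he, Nat.choose_succ_succ, add_comm (i.choose e), pow_add]
    refine h3.mono ?_
    push_cast
    have h4 : η * ((1 + (i : ℝ)) / lam) ^ (e + 1) + η * ((1 + (i : ℝ)) / lam) ^ e / lam =
        η * (((1 + (i : ℝ)) / lam) ^ e * ((1 + ((i : ℝ) + 1)) / lam)) := by
      rw [pow_succ]
      field_simp
      ring
    rw [h4, pow_succ]
    apply mul_le_mul_of_nonneg_left _ hη.le
    apply mul_le_mul_of_nonneg_right _ (by positivity)
    apply pow_le_pow_left₀ hbase
    apply div_le_div_of_nonneg_right _ hlam.le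
    linarith
  -- all bad sets together
  let B : Finset V := (range R).biUnion fun s =>
    (univ : Finset (Fin (s + 1) → Fin n)).biUnion fun J =>
      if StrictMono J then bad s (fun a => (J a : ℕ)) else ∅
  have hB : (B.card : ℝ) ≤ (R : ℝ) * (m : ℝ) ^ R * lam * Fintype.card V := by
    have h1 : B.card ≤ ∑ s ∈ range R, ∑ J : Fin (s + 1) → Fin n,
        (if StrictMono J then bad s (fun a => (J a : ℕ)) else ∅).card := by
      refine card_biUnion_le.trans ?_
      apply sum_le_sum
      intro s _
      exact card_biUnion_le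
    have h2 : (B.card : ℝ) ≤ ∑ s ∈ range R, ∑ J : Fin (s + 1) → Fin n,
        (((if StrictMono J then bad s (fun a => (J a : ℕ)) else ∅ : Finset V).card : ℕ) : ℝ) := by
      exact_mod_cast h1
    refine h2.trans ?_
    have h3 : ∀ s ∈ range R, ∑ J : Fin (s + 1) → Fin n,
        (((if StrictMono J then bad s (fun a => (J a : ℕ)) else ∅ : Finset V).card : ℕ) : ℝ) ≤
        (m : ℝ) ^ R * (lam * Fintype.card V) := by
      intro s hs
      have hsR := mem_range.1 hs
      have h4 : ∀ J ∈ (univ : Finset (Fin (s + 1) → Fin n)),
          (((if StrictMono J then bad s (fun a => (J a : ℕ)) else ∅ : Finset V).card : ℕ) : ℝ) ≤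
          lam * Fintype.card V := by
        intro J _
        by_cases hJ : StrictMono J
        · rw [if_pos hJ]
          exact hbad s hsR _ (fun a b hab => hJ hab) (fun a => (J a).2)
        · rw [if_neg hJ, card_empty, Nat.cast_zero]
          positivity
      refine (sum_le_sum h4).trans ?_
      rw [sum_const, card_univ, Fintype.card_fun, Fintype.card_fin, Fintype.card_fin, nsmul_eq_mul]
      apply mul_le_mul_of_nonneg_right _ (by positivity)
      push_cast
      calc (n : ℝ) ^ (s + 1) ≤ (m : ℝ) ^ (s + 1) := by
            apply pow_le_pow_left₀ (Nat.cast_nonneg _)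
            exact_mod_cast (by omega : n ≤ m)
        _ ≤ (m : ℝ) ^ R := pow_le_pow_right₀ hm' (by omega)
    refine (sum_le_sum h3).trans ?_
    rw [sum_const, card_range, nsmul_eq_mul]
    apply le_of_eq
    ring
  have hlt : B.card < G.card := by
    have h1 := hnum i (by omega)
    have h2 : ((R : ℝ) * (m : ℝ) ^ R * lam + η * ((1 + i) / lam) ^ R) * Fintype.card V <
        p ^ (i.choose R) * Fintype.card V := mul_lt_mul_of_pos_right h1 hN
    have h3 : (B.card : ℝ) < G.card := by nlinarith
    exact_mod_cast h3
  obtain ⟨x, hxG, hxB⟩ := exists_mem_notMem_of_card_lt_card hlt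
  refine ⟨x, (mem_filter.1 hxG).2, ?_⟩
  intro s hs J hJ hJn
  rcases Nat.lt_or_ge s R with hsR | hsR
  · by_contra hcon
    apply hxB
    rw [mem_biUnion]
    refine ⟨s, mem_range.2 hsR, ?_⟩
    rw [mem_biUnion]
    refine ⟨fun a => ⟨J a, hJn a⟩, mem_univ _, ?_⟩
    rw [if_pos (by intro a b hab; exact hJ hab)]
    exact mem_filter.2 ⟨mem_univ _, hcon⟩
  · have hsR' : s = R := le_antisymm hs hsR
    subst hsR'
    have h := hE s le_rfl (fun a => J a + 1)
      (fun a b hab => Nat.add_lt_add_right (hJ hab) 1) (fun a => Nat.add_lt_add_right (hJn a) 1)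
    have : E.next s x s J = E s (fun a => J a + 1) := by
      funext w
      unfold Sys.next
      simp
    rw [this]
    simpa using h

/-- **Embedding lemma.** -/
theorem embed (R m : ℕ) (p η lam : ℝ) (hp0 : 0 < p) (hp1 : p ≤ 1)
    (hη : 0 < η) (hlam : 0 < lam)
    (hnum : ∀ i < m, (R : ℝ) * (m : ℝ) ^ R * lam + η * ((1 + i) / lam) ^ R < p ^ (i.choose R))
    (hV : 0 < Fintype.card V) :
    ∀ (n i : ℕ), n + i ≤ m → ∀ E : Sys V, RichSys E R n i p η lam →
      ∃ v : ℕ → V, ∀ s ≤ R, ∀ J : Fin (s + 1) → ℕ, StrictMono J → (∀ a, J a < n) →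
        E s J (v ∘ J) := by
  intro n
  induction n with
  | zero =>
    intro i _ E _
    obtain ⟨x⟩ := Fintype.card_pos_iff.1 hV
    exact ⟨fun _ => x, fun s _ J _ h => absurd (h 0) (Nat.not_lt_zero _)⟩
  | succ n ih =>
    intro i hi E hE
    obtain ⟨x, hx, hE'⟩ := exists_vertex E R m n i p η lam hp0 hp1 hη hlam hi hnum hV hE
    obtain ⟨v, hv⟩ := ih (i + 1) (by omega) _ hE'
    refine ⟨fun a => Nat.casesOn a x v, ?_⟩
    intro s hs J hJ hJn
    rcases Nat.eq_zero_or_pos (J 0) with h0 | h0
    · rcases Nat.eq_zero_or_pos s with rfl | hs0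
      · have h1 : J = fun _ => 0 := by
          funext a
          have h2 : a = 0 := Fin.ext (by have := a.2; simp only [Fin.val_zero]; omega)
          rw [h2, h0]
        rw [h1]
        exact hx
      · obtain ⟨s, rfl⟩ : ∃ s', s = s' + 1 := ⟨s - 1, by omega⟩
        have hpos : ∀ a : Fin (s + 1), 1 ≤ J a.succ := by
          intro a
          have := hJ (Fin.succ_pos a)
          omega
        have h1 := (hv s (by omega) (fun a => J a.succ - 1) (by
          intro a b hab
          have h2 := hJ (Fin.succ_lt_succ_iff.2 hab)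
          have h3 := hpos a
          show J a.succ - 1 < J b.succ - 1
          omega) (by
          intro a
          have h2 := hJn a.succ
          have h3 := hpos a
          show J a.succ - 1 < n
          omega)).2 (by omega)
        have h2 : (Fin.cons 0 (fun a : Fin (s + 1) => J a.succ - 1 + 1) : Fin (s + 2) → ℕ) = J := by
          funext a
          refine Fin.cases ?_ (fun a => ?_) a
          · simp [h0]
          · simp only [Fin.cons_succ]
            have := hpos a
            omega
        rw [h2] at h1
        have h3 : (Fin.cons x (v ∘ fun a : Fin (s + 1) => J a.succ - 1) : Fin (s + 2) → V) =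
            (fun a => Nat.casesOn a x v : ℕ → V) ∘ J := by
          funext a
          refine Fin.cases ?_ (fun a => ?_) a
          · simp [h0]
          · simp only [Fin.cons_succ, Function.comp]
            obtain ⟨b, hb⟩ : ∃ b, J a.succ = b + 1 := ⟨J a.succ - 1, by have := hpos a; omega⟩
            rw [hb]
            rfl
        rw [h3] at h1
        exact h1
    · have hpos : ∀ a, 1 ≤ J a := by
        intro a
        have := hJ.monotone (Fin.zero_le a)
        omega
      have h1 := (hv s hs (fun a => J a - 1) (by
        intro a b hab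
        have h2 := hJ hab
        have h3 := hpos a
        show J a - 1 < J b - 1
        omega) (by
        intro a
        have h2 := hJn a
        have h3 := hpos a
        show J a - 1 < n
        omega)).1
      have h2 : (fun a => J a - 1 + 1) = J := by
        funext a
        have := hpos a
        omega
      rw [h2] at h1
      have h3 : (v ∘ fun a => J a - 1) = (fun a => Nat.casesOn a x v : ℕ → V) ∘ J := by
        funext a
        simp only [Function.comp]
        obtain ⟨b, hb⟩ : ∃ b, J a = b + 1 := ⟨J a - 1, by have := hpos a; omega⟩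
        rw [hb]
        rfl
      rw [h3] at h1
      exact h1

end Pool.Agent.T2H15.QR
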