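import Pool.Agent.T2H15.QR.Comp
import Pool.Agent.T2H15.QR.Emb
import Pool.Agent.TH138.NF.Main

/-! Definitions for the final statement, and the translation to cylinders given by functions. -/

set_option autoImplicit false

namespace Pool.Agent.T2H15.QR

open Finset

/-- `B` is a cylinder intersection: the intersection of `r` sets `T j` of `r`-tuples such that
membership in `T j` does not depend on the coordinate `j`. -/
def IsCylinder {V : Type} {r : ℕ} (B : Set (Fin r → V)) : Prop :=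
  ∃ T : Fin r → Set (Fin r → V),
    (∀ j, ∀ x ∈ T j, ∀ v, Function.update x j v ∈ T j) ∧ B = ⋂ j, T j

/-- The injective `r`-tuples whose set of entries has the colour `i`. -/
def tuples {V κ : Type} [DecidableEq V] (r : ℕ) (c : Finset V → κ) (i : κ) :
    Set (Fin r → V) :=
  {x | Function.Injective x ∧ c (univ.image x) = i}

/-- Every cylinder intersection contains the right number of tuples of every colour, up to the
error `η N ^ r`. -/
def Quasirandom (r N q : ℕ) (c : Finset (Fin N) → Fin q) (η : ℝ) : Prop :=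
  ∀ (i : Fin q) (B : Set (Fin r → Fin N)), IsCylinder B →
    |((B ∩ tuples r c i).ncard : ℝ) - (B.ncard : ℝ) / q| ≤ η * (N : ℝ) ^ r

theorem cnt_eq_ncard {V : Type} [Fintype V] {s : ℕ} (P : (Fin s → V) → Prop) :
    cnt P = {x | P x}.ncard := by
  classical
  rw [cnt_eq, ← Set.ncard_coe_finset]
  congr 1
  ext x
  simp

theorem isCylinder_cyl {V : Type} {s : ℕ} (T : Fin (s + 1) → (Fin s → V) → Prop) :
    IsCylinder {x | Cyl T x} := by
  refine ⟨fun j => {x | T j (j.removeNth x)}, ?_, ?_⟩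
  · intro j x hx v
    show T j (j.removeNth (Function.update x j v))
    rw [Fin.removeNth_update]
    exact hx
  · ext x
    rw [Set.mem_iInter]
    rfl

theorem exists_cyl {V : Type} {s : ℕ} (v₀ : V) {B : Set (Fin (s + 1) → V)} (hB : IsCylinder B) :
    ∃ T : Fin (s + 1) → (Fin s → V) → Prop, ∀ x, x ∈ B ↔ Cyl T x := by
  obtain ⟨T, hT, rfl⟩ := hB
  refine ⟨fun j u => j.insertNth v₀ u ∈ T j, fun x => ?_⟩
  rw [Set.mem_iInter]
  unfold Cyl
  apply forall_congr'
  intro j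
  constructor
  · intro h
    show j.insertNth v₀ (j.removeNth x) ∈ T j
    rw [Fin.insertNth_removeNth]
    exact hT j x h v₀
  · intro h
    have h' : j.insertNth v₀ (j.removeNth x) ∈ T j := h
    rw [Fin.insertNth_removeNth] at h'
    have := hT j _ h' (x j)
    rwa [Function.update_idem, Function.update_eq_self] at this

theorem Quasirandom.rich {s N q : ℕ} {c : Finset (Fin N) → Fin q} {η : ℝ}
    (h : Quasirandom (s + 1) N q c η) (i : Fin q) : Rich (Col s c i) (1 / q) η := by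
  intro T
  have h1 := (abs_le.1 (h i {x | Cyl T x} (isCylinder_cyl T))).1
  have h2 : {x | Cyl T x} ∩ tuples (s + 1) c i = {x | Cyl T x ∧ Col s c i x} := rfl
  rw [h2, ← cnt_eq_ncard, ← cnt_eq_ncard] at h1
  rw [Fintype.card_fin]
  have h3 : (1 : ℝ) / q * cnt (Cyl T) = cnt (Cyl T) / q := by ring
  rw [h3]
  have h4 : cnt (fun x => Cyl T x) = cnt (Cyl T) := rfl
  rw [h4] at h1
  linarith

theorem quasirandom_of_rich {s N q : ℕ} (hq : 1 ≤ q) {c : Finset (Fin N) → Fin q} {η : ℝ}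
    (hη : 0 ≤ η) (hN : 1 ≤ N)
    (h : ∀ i, Rich (Col s c i) (1 / q) η) : Quasirandom (s + 1) N q c (q * η) := by
  classical
  intro i B hB
  obtain ⟨T, hT⟩ := exists_cyl ⟨0, hN⟩ hB
  have hBs : B = {x | Cyl T x} := Set.ext hT
  have h2 : B ∩ tuples (s + 1) c i = {x | Cyl T x ∧ Col s c i x} := by
    rw [hBs]
    rfl
  rw [h2, hBs, ← cnt_eq_ncard, ← cnt_eq_ncard]
  have hq' : (1 : ℝ) ≤ (q : ℝ) := by exact_mod_cast hq
  have hlow : ∀ j, (cnt (Cyl T) : ℝ) / q - η * (N : ℝ) ^ (s + 1) ≤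
      cnt (fun x => Cyl T x ∧ Col s c j x) := by
    intro j
    have := h j T
    rw [Fintype.card_fin] at this
    have h3 : (1 : ℝ) / q * cnt (Cyl T) = cnt (Cyl T) / q := by ring
    rw [h3] at this
    exact this
  have hηN : 0 ≤ η * (N : ℝ) ^ (s + 1) := by positivity
  have hsum : ∑ j : Fin q, (cnt (fun x => Cyl T x ∧ Col s c j x) : ℝ) ≤ cnt (Cyl T) := by
    have h3 : ∑ j : Fin q, cnt (fun x => Cyl T x ∧ Col s c j x) ≤ cnt (Cyl T) := by
      rw [cnt_fiber (fun x : Fin (s + 1) → Fin N => c (univ.image x)) (Cyl T)]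
      apply sum_le_sum
      intro j _
      apply cnt_mono
      rintro x ⟨h4, h5⟩
      exact ⟨h4, h5.2⟩
    exact_mod_cast h3
  have hup : (cnt (fun x => Cyl T x ∧ Col s c i x) : ℝ) ≤
      (cnt (Cyl T) : ℝ) / q + (q - 1) * (η * (N : ℝ) ^ (s + 1)) := by
    rw [← add_sum_erase univ _ (mem_univ i)] at hsum
    have h3 : ∑ j ∈ univ.erase i, ((cnt (Cyl T) : ℝ) / q - η * (N : ℝ) ^ (s + 1)) ≤
        ∑ j ∈ univ.erase i, (cnt (fun x => Cyl T x ∧ Col s c j x) : ℝ) :=
      sum_le_sum fun j _ => hlow j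
    rw [sum_const, card_erase_of_mem (mem_univ _), card_univ, Fintype.card_fin,
      nsmul_eq_mul, Nat.cast_sub hq, Nat.cast_one] at h3
    have h4 : ((q : ℝ) - 1) * ((cnt (Cyl T) : ℝ) / q) = cnt (Cyl T) - cnt (Cyl T) / q := by
      field_simp
    rw [mul_sub, h4] at h3
    linarith
  have h5 : cnt (fun x => Cyl T x) = cnt (Cyl T) := rfl
  rw [h5, abs_le]
  have h6 : ((q : ℝ) - 1) * (η * (N : ℝ) ^ (s + 1)) ≤ q * η * (N : ℝ) ^ (s + 1) := by nlinarith
  have h7 : η * (N : ℝ) ^ (s + 1) ≤ q * η * (N : ℝ) ^ (s + 1) := by nlinarith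
  constructor
  · have := hlow i
    linarith
  · linarith

/-- The number `n` of vertices of a homogeneous set is unavoidable only for towers: for large `n`
there are `q`-colourings of the `r`-subsets of at least `T_(r-1) (ε n)` points without homogeneous
set of `n` points. -/
def TowerGrowth (r q : ℕ) : Prop :=
  ∃ ε : ℝ, 0 < ε ∧ ∃ n₀ : ℕ, ∀ n : ℕ, n₀ ≤ n → ∃ N : ℕ, TH138.NF.tow (r - 1) (ε * n) ≤ N ∧
    ∃ c : Finset (Fin N) → Fin q, ∀ S : Finset (Fin N), S.card = n → ¬ Hom r c S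

/-- The same with quasirandom colourings, with error `2 ^ (- ε n ^ (r - 1))`. -/
def QuasirandomTowerGrowth (r q : ℕ) : Prop :=
  ∃ ε : ℝ, 0 < ε ∧ ∃ n₀ : ℕ, ∀ n : ℕ, n₀ ≤ n → ∃ N : ℕ, TH138.NF.tow (r - 1) (ε * n) ≤ N ∧
    ∃ c : Finset (Fin N) → Fin q, (∀ S : Finset (Fin N), S.card = n → ¬ Hom r c S) ∧
      Quasirandom r N q c (2 ^ (-(ε * (n : ℝ) ^ (r - 1))))

end Pool.Agent.T2H15.QR
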