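import Pool.Agent.T2H15.QR.Rand

/-! Existence of quasirandom colourings without large homogeneous sets. -/

set_option autoImplicit false

namespace Pool.Agent.T2H15.QR

open Finset

/-- All `r`-subsets of `S` have the same colour. -/
def Hom {V κ : Type} (r : ℕ) (c : Finset V → κ) (S : Finset V) : Prop :=
  ∀ A ⊆ S, ∀ B ⊆ S, A.card = r → B.card = r → c A = c B

variable {V : Type} [Fintype V] [DecidableEq V]

/-- The relation of being an injective tuple of colour `i`. -/
def Col {κ : Type} (s : ℕ) (c : Finset V → κ) (i : κ) (x : Fin (s + 1) → V) : Prop :=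
  Function.Injective x ∧ c (univ.image x) = i

theorem deviation {s q : ℕ} (hq : 1 ≤ q) (T : Fin (s + 1) → (Fin s → V) → Prop) (i : Fin q)
    {η : ℝ} (hη0 : 0 < η) (hη2 : η ≤ 2)
    (ht : 2 * ((s : ℝ) + 1) ^ 2 ≤ η * Fintype.card V) (X : Finset (Finset V → Fin q))
    (hX : ∀ D ∈ X, (cnt (fun x => Cyl T x ∧ Col s D i x) : ℝ) <
      1 / q * cnt (Cyl T) - η * (Fintype.card V : ℝ) ^ (s + 1)) :
    (X.card : ℝ) ≤ (q : ℝ) ^ Fintype.card (Finset V) *
      Real.exp (-(η ^ 2 * (Fintype.card V : ℝ) ^ (s + 1) / (16 * ((s + 1) ^ (s + 1) : ℕ)))) := by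
  classical
  set K : ℕ := (s + 1) ^ (s + 1) with hK
  have hK1 : 1 ≤ K := Nat.one_le_pow _ _ (by omega)
  have hK0 : (0 : ℝ) < (K : ℝ) := by exact_mod_cast hK1
  have hK1' : (1 : ℝ) ≤ (K : ℝ) := by exact_mod_cast hK1
  set t : ℝ := (Fintype.card V : ℝ) with ht'
  have ht0 : 0 ≤ t := Nat.cast_nonneg _
  set lam : ℝ := η / (4 * K) with hlam
  have hlam0 : 0 < lam := by positivity
  have hlamK : lam * K = η / 4 := by
    rw [hlam]
    field_simp
  have hwK : ∀ e : Finset V, (wt T e : ℝ) ≤ K := by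
    intro e
    exact_mod_cast wt_le T e
  have hw0 : ∀ e : Finset V, 0 ≤ lam * (wt T e : ℝ) := fun e => by positivity
  have hw1 : ∀ e : Finset V, lam * (wt T e : ℝ) ≤ 1 := by
    intro e
    calc lam * (wt T e : ℝ) ≤ lam * K := mul_le_mul_of_nonneg_left (hwK e) hlam0.le
      _ = η / 4 := hlamK
      _ ≤ 1 := by linarith
  have hsum : ∑ e : Finset V, (wt T e : ℝ) = cnt (fun x => Cyl T x ∧ Function.Injective x) := by
    have h := sum_wt T (fun _ => True)
    simp only [if_true, mul_one, and_true] at h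
    exact_mod_cast h
  have hsum_le : ∑ e : Finset V, (wt T e : ℝ) ≤ t ^ (s + 1) := by
    rw [hsum, ht']
    exact_mod_cast cnt_le _
  have hinj : (cnt (Cyl T) : ℝ) ≤ cnt (fun x => Cyl T x ∧ Function.Injective x) +
      (s + 1) ^ 2 * t ^ s := by
    have h1 : cnt (Cyl T) ≤ cnt (fun x => Cyl T x ∧ Function.Injective x) +
        cnt (fun x : Fin (s + 1) → V => ¬ Function.Injective x) := cnt_le_add _ _
    have h2 := cnt_not_injective (V := V) s
    have h3 : cnt (Cyl T) ≤ cnt (fun x => Cyl T x ∧ Function.Injective x) +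
      (s + 1) ^ 2 * Fintype.card V ^ s := h1.trans (Nat.add_le_add_left h2 _)
    rw [ht']
    exact_mod_cast h3
  set y : ℝ := lam * (η / 2 * t ^ (s + 1)) with hy
  have hsub : X ⊆ univ.filter fun D : Finset V → Fin q =>
      y ≤ ∑ e, lam * (wt T e : ℝ) * (1 / q - if D e = i then 1 else 0) := by
    intro D hD
    rw [mem_filter]
    refine ⟨mem_univ _, ?_⟩
    have h1 : ∑ e : Finset V, lam * (wt T e : ℝ) * (1 / q - if D e = i then 1 else 0) =
        lam * (1 / q * cnt (fun x => Cyl T x ∧ Function.Injective x) -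
          cnt (fun x => Cyl T x ∧ Col s D i x)) := by
      have h2 := sum_wt T (fun e => D e = i)
      have h3 : (∑ e : Finset V, (wt T e : ℝ) * (if D e = i then 1 else 0)) =
          cnt (fun x => Cyl T x ∧ Col s D i x) := by
        unfold Col
        rw [← h2]
        push_cast
        rfl
      rw [← h3, ← hsum, mul_sum, ← sum_sub_distrib, mul_sum]
      apply sum_congr rfl
      intro e _
      ring
    rw [h1, hy]
    apply mul_le_mul_of_nonneg_left _ hlam0.le
    have h2 := hX D hD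
    have hq' : (1 : ℝ) ≤ (q : ℝ) := by exact_mod_cast hq
    have h3 : (1 : ℝ) / q * cnt (Cyl T) ≤
        1 / q * cnt (fun x => Cyl T x ∧ Function.Injective x) + (s + 1) ^ 2 * t ^ s := by
      have h4 : (1 : ℝ) / q * cnt (Cyl T) ≤
          1 / q * (cnt (fun x => Cyl T x ∧ Function.Injective x) + (s + 1) ^ 2 * t ^ s) :=
        mul_le_mul_of_nonneg_left hinj (by positivity)
      have h5 : (1 : ℝ) / q ≤ 1 := by
        rw [div_le_one (by linarith)]
        exact hq'
      have h6 : (1 : ℝ) / q * ((s + 1) ^ 2 * t ^ s) ≤ (s + 1) ^ 2 * t ^ s := by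
        have : (0 : ℝ) ≤ (s + 1) ^ 2 * t ^ s := by positivity
        nlinarith
      linarith
    have h4 : ((s : ℝ) + 1) ^ 2 * t ^ s ≤ η / 2 * t ^ (s + 1) := by
      have h5 : ((s : ℝ) + 1) ^ 2 ≤ η / 2 * t := by linarith
      calc ((s : ℝ) + 1) ^ 2 * t ^ s ≤ η / 2 * t * t ^ s :=
            mul_le_mul_of_nonneg_right h5 (by positivity)
        _ = η / 2 * t ^ (s + 1) := by ring
    linarith
  have h1 : (X.card : ℝ) ≤ ((univ.filter fun D : Finset V → Fin q =>
      y ≤ ∑ e, lam * (wt T e : ℝ) * (1 / q - if D e = i then 1 else 0)).card : ℝ) := by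
    exact_mod_cast card_le_card hsub
  refine h1.trans ((markov hq i (fun e => lam * (wt T e : ℝ)) hw0 hw1 y).trans ?_)
  apply mul_le_mul_of_nonneg_left _ (by positivity)
  apply Real.exp_le_exp.2
  have h2 : ∑ e : Finset V, (lam * (wt T e : ℝ)) ^ 2 ≤ lam ^ 2 * K * t ^ (s + 1) := by
    calc ∑ e : Finset V, (lam * (wt T e : ℝ)) ^ 2
        ≤ ∑ e : Finset V, lam ^ 2 * K * (wt T e : ℝ) := by
          apply sum_le_sum
          intro e _
          have h3 : (0 : ℝ) ≤ (wt T e : ℝ) := Nat.cast_nonneg _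
          have h4 := hwK e
          rw [mul_pow, mul_assoc]
          apply mul_le_mul_of_nonneg_left _ (by positivity)
          nlinarith
      _ = lam ^ 2 * K * ∑ e : Finset V, (wt T e : ℝ) := by rw [mul_sum]
      _ ≤ _ := mul_le_mul_of_nonneg_left hsum_le (by positivity)
  have h3 : lam ^ 2 * K * t ^ (s + 1) - y = -(η ^ 2 * t ^ (s + 1) / (16 * (K : ℝ))) := by
    rw [hy, hlam]
    field_simp
    ring
  linarith

/-- The union bound for quasirandomness. -/
theorem bad_le {s q : ℕ} (hq : 1 ≤ q) {η : ℝ} (hη0 : 0 < η) (hη2 : η ≤ 2)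
    (hV : 1 ≤ Fintype.card V)
    (ht : 16 * ((s + 1) ^ (s + 1) : ℕ) * ((s : ℝ) + 1 + 4 * q) ≤ η ^ 2 * Fintype.card V)
    (X : Finset (Finset V → Fin q))
    (hX : ∀ D ∈ X, ∃ i, ¬ Rich (Col s D i) (1 / q) η) :
    (X.card : ℝ) ≤ (q : ℝ) ^ Fintype.card (Finset V) / 4 := by
  classical
  set K : ℕ := (s + 1) ^ (s + 1) with hK
  have hK1 : s + 1 ≤ K := by
    calc s + 1 = (s + 1) ^ 1 := (pow_one _).symm
      _ ≤ (s + 1) ^ (s + 1) := Nat.pow_le_pow_right (by omega) (by omega)
  have hK1' : (s : ℝ) + 1 ≤ (K : ℝ) := by exact_mod_cast hK1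
  have hq' : (1 : ℝ) ≤ (q : ℝ) := by exact_mod_cast hq
  set t : ℝ := (Fintype.card V : ℝ) with ht'
  have ht1 : (1 : ℝ) ≤ t := by
    rw [ht']
    exact_mod_cast hV
  have hs0 : (0 : ℝ) ≤ (s : ℝ) := Nat.cast_nonneg _
  have ht2 : 2 * ((s : ℝ) + 1) ^ 2 ≤ η * t := by
    have h1 : η ^ 2 * t ≤ 2 * (η * t) := by nlinarith [mul_pos hη0 (by linarith : (0 : ℝ) < t)]
    have h2 : 16 * ((s : ℝ) + 1) * ((s : ℝ) + 1) ≤ 16 * (K : ℝ) * ((s : ℝ) + 1 + 4 * q) := by
      apply mul_le_mul
      · linarith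
      · linarith
      · linarith
      · positivity
    nlinarith
  -- the bad colourings for a cylinder and a colour
  let Y : (Fin (s + 1) → (Fin s → V) → Bool) × Fin q → Finset (Finset V → Fin q) := fun z =>
    univ.filter fun D => (cnt (fun x => Cyl (fun j u => z.1 j u = true) x ∧ Col s D z.2 x) : ℝ) <
      1 / q * cnt (Cyl (V := V) (s := s) fun j u => z.1 j u = true) - η * t ^ (s + 1)
  have hXY : X ⊆ univ.biUnion Y := by
    intro D hD
    obtain ⟨i, hi⟩ := hX D hD
    unfold Rich at hi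
    push Not at hi
    obtain ⟨T, hT⟩ := hi
    rw [mem_biUnion]
    refine ⟨(fun j u => decide (T j u), i), mem_univ _, ?_⟩
    rw [mem_filter]
    refine ⟨mem_univ _, ?_⟩
    simpa using hT
  have hE : ∀ z, ((Y z).card : ℝ) ≤ (q : ℝ) ^ Fintype.card (Finset V) *
      Real.exp (-(((s : ℝ) + 1 + 4 * q) * t ^ s)) := by
    intro z
    refine (deviation hq (fun j u => z.1 j u = true) z.2 hη0 hη2 ht2 (Y z)
      (fun D hD => (mem_filter.1 hD).2)).trans ?_
    apply mul_le_mul_of_nonneg_left _ (by positivity)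
    apply Real.exp_le_exp.2
    apply neg_le_neg
    rw [le_div_iff₀ (by positivity)]
    calc ((s : ℝ) + 1 + 4 * q) * t ^ s * (16 * ((K : ℕ) : ℝ))
        = (16 * (K : ℝ) * ((s : ℝ) + 1 + 4 * q)) * t ^ s := by ring
      _ ≤ (η ^ 2 * t) * t ^ s := mul_le_mul_of_nonneg_right ht (by positivity)
      _ = η ^ 2 * t ^ (s + 1) := by ring
  have hcard : (Fintype.card ((Fin (s + 1) → (Fin s → V) → Bool) × Fin q) : ℝ) ≤
      Real.exp (((s : ℝ) + 1) * t ^ s) * q := by
    rw [Fintype.card_prod, Fintype.card_fin, Fintype.card_fun, Fintype.card_fun, Fintype.card_fun,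
      Fintype.card_fin, Fintype.card_fin, Fintype.card_bool]
    push_cast
    apply mul_le_mul_of_nonneg_right _ (by linarith)
    rw [← pow_mul]
    have h2e : (2 : ℝ) ≤ Real.exp 1 := by
      have := Real.add_one_le_exp (1 : ℝ)
      linarith
    calc (2 : ℝ) ^ (Fintype.card V ^ s * (s + 1))
        ≤ (Real.exp 1) ^ (Fintype.card V ^ s * (s + 1)) :=
          pow_le_pow_left₀ (by norm_num) h2e _
      _ = Real.exp (((s : ℝ) + 1) * t ^ s) := by
          rw [← Real.exp_nat_mul]
          push_cast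
          congr 1
          ring
  have h1 : (X.card : ℝ) ≤ ∑ z, ((Y z).card : ℝ) := by
    exact_mod_cast (card_le_card hXY).trans card_biUnion_le
  refine h1.trans ((sum_le_sum fun z _ => hE z).trans ?_)
  rw [sum_const, card_univ, nsmul_eq_mul]
  have h2 : Real.exp (((s : ℝ) + 1) * t ^ s) * q *
      Real.exp (-(((s : ℝ) + 1 + 4 * q) * t ^ s)) ≤ 1 / 4 := by
    have h3 : Real.exp (((s : ℝ) + 1) * t ^ s) * q * Real.exp (-(((s : ℝ) + 1 + 4 * q) * t ^ s)) =
        q * Real.exp (-(4 * q * t ^ s)) := by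
      rw [mul_comm (Real.exp _) (q : ℝ), mul_assoc, ← Real.exp_add]
      congr 2
      ring
    rw [h3]
    have h4 : Real.exp (-(4 * q * t ^ s)) ≤ Real.exp (-(4 * q)) := by
      apply Real.exp_le_exp.2
      have : (1 : ℝ) ≤ t ^ s := one_le_pow₀ ht1
      nlinarith
    have h5 : Real.exp (-(4 * (q : ℝ))) ≤ 1 / (4 * q) := by
      rw [Real.exp_neg, ← one_div]
      apply one_div_le_one_div_of_le (by positivity)
      have := Real.add_one_le_exp (4 * (q : ℝ))
      linarith
    calc (q : ℝ) * Real.exp (-(4 * q * t ^ s)) ≤ q * (1 / (4 * q)) :=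
          mul_le_mul_of_nonneg_left (h4.trans h5) (by linarith)
      _ = 1 / 4 := by
          field_simp
  calc (Fintype.card ((Fin (s + 1) → (Fin s → V) → Bool) × Fin q) : ℝ) *
        ((q : ℝ) ^ Fintype.card (Finset V) * Real.exp (-(((s : ℝ) + 1 + 4 * q) * t ^ s)))
      ≤ (Real.exp (((s : ℝ) + 1) * t ^ s) * q) *
        ((q : ℝ) ^ Fintype.card (Finset V) * Real.exp (-(((s : ℝ) + 1 + 4 * q) * t ^ s))) :=
        mul_le_mul_of_nonneg_right hcard (by positivity)
    _ = (q : ℝ) ^ Fintype.card (Finset V) * (Real.exp (((s : ℝ) + 1) * t ^ s) * q *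
      Real.exp (-(((s : ℝ) + 1 + 4 * q) * t ^ s))) := by ring
    _ ≤ (q : ℝ) ^ Fintype.card (Finset V) * (1 / 4) :=
        mul_le_mul_of_nonneg_left h2 (by positivity)
    _ = _ := by ring

/-- The number of colourings which are constant on a family. -/
theorem card_const {F : Type} [Fintype F] [DecidableEq F] {q : ℕ} (P : Finset F) (i : Fin q) :
    (univ.filter fun D : F → Fin q => ∀ A ∈ P, D A = i).card * q ^ P.card =
      q ^ Fintype.card F := by
  have h1 : (univ.filter fun D : F → Fin q => ∀ A ∈ P, D A = i) =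
      Fintype.piFinset fun A => if A ∈ P then {i} else univ := by
    ext D
    rw [mem_filter, Fintype.mem_piFinset]
    constructor
    · rintro ⟨_, h⟩ A
      by_cases hA : A ∈ P
      · rw [if_pos hA, mem_singleton]
        exact h A hA
      · rw [if_neg hA]
        exact mem_univ _
    · intro h
      refine ⟨mem_univ _, fun A hA => ?_⟩
      have := h A
      rw [if_pos hA, mem_singleton] at this
      exact this
  rw [h1, Fintype.card_piFinset]
  have h2 : ∀ A : F, (if A ∈ P then ({i} : Finset (Fin q)) else univ).card =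
      if A ∈ P then 1 else q := by
    intro A
    split_ifs
    · rw [card_singleton]
    · rw [card_univ, Fintype.card_fin]
  rw [prod_congr rfl fun A _ => h2 A, prod_ite, prod_const_one, one_mul, prod_const, ← pow_add,
    ← card_univ]
  congr 1
  have h3 : (univ.filter fun A : F => A ∉ P) = univ \ P := by
    ext A
    simp
  rw [h3, card_sdiff_add_card_eq_card (subset_univ P)]

/-- The union bound for homogeneous sets. -/
theorem hom_le {s q a : ℕ} (hq : 1 ≤ q) (ha : s + 1 ≤ a)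
    (hb : 2 * q * Fintype.card V ^ a ≤ q ^ (a.choose (s + 1)))
    (X : Finset (Finset V → Fin q))
    (hX : ∀ D ∈ X, ∃ S : Finset V, S.card = a ∧ Hom (s + 1) D S) :
    (X.card : ℝ) ≤ (q : ℝ) ^ Fintype.card (Finset V) / 2 := by
  classical
  set C := a.choose (s + 1) with hC
  have hqC : (0 : ℝ) < (q : ℝ) ^ C := by
    have : (0 : ℝ) < (q : ℝ) := by exact_mod_cast hq
    positivity
  let Y : Finset V × Fin q → Finset (Finset V → Fin q) := fun z =>
    univ.filter fun D => ∀ A ∈ powersetCard (s + 1) z.1, D A = z.2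
  have hXY : X ⊆ (powersetCard a (univ : Finset V) ×ˢ (univ : Finset (Fin q))).biUnion Y := by
    intro D hD
    obtain ⟨S, hS, hH⟩ := hX D hD
    obtain ⟨A₀, hA₀, hA₀c⟩ := exists_subset_card_eq (s := S) (n := s + 1) (by omega)
    rw [mem_biUnion]
    refine ⟨(S, D A₀), ?_, ?_⟩
    · rw [mem_product, mem_powersetCard]
      exact ⟨⟨subset_univ _, hS⟩, mem_univ _⟩
    · rw [mem_filter]
      refine ⟨mem_univ _, fun A hA => ?_⟩
      rw [mem_powersetCard] at hA
      exact hH A hA.1 A₀ hA₀ hA.2 hA₀c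
  have hY : ∀ z ∈ powersetCard a (univ : Finset V) ×ˢ (univ : Finset (Fin q)),
      ((Y z).card : ℝ) ≤ (q : ℝ) ^ Fintype.card (Finset V) / (q : ℝ) ^ C := by
    intro z hz
    rw [mem_product, mem_powersetCard] at hz
    have h1 := card_const (powersetCard (s + 1) z.1) z.2
    rw [card_powersetCard, hz.1.2] at h1
    rw [le_div_iff₀ hqC]
    apply le_of_eq
    exact_mod_cast h1
  have h1 : (X.card : ℝ) ≤ ∑ z ∈ powersetCard a (univ : Finset V) ×ˢ (univ : Finset (Fin q)),
      ((Y z).card : ℝ) := by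
    exact_mod_cast (card_le_card hXY).trans card_biUnion_le
  refine h1.trans ((sum_le_sum hY).trans ?_)
  rw [sum_const, card_product, card_powersetCard, card_univ, card_univ, Fintype.card_fin,
    nsmul_eq_mul]
  have h2 : (((Fintype.card V).choose a * q : ℕ) : ℝ) ≤ (q : ℝ) ^ C / 2 := by
    have h3 : (Fintype.card V).choose a ≤ Fintype.card V ^ a := Nat.choose_le_pow _ _
    have h4 : 2 * ((Fintype.card V).choose a * q) ≤ q ^ C :=
      le_trans (by nlinarith [Nat.mul_le_mul_right q h3]) hb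
    have h5 : 2 * ((((Fintype.card V).choose a * q : ℕ)) : ℝ) ≤ (q : ℝ) ^ C := by
      exact_mod_cast h4
    linarith
  calc (((Fintype.card V).choose a * q : ℕ) : ℝ) *
        ((q : ℝ) ^ Fintype.card (Finset V) / (q : ℝ) ^ C)
      ≤ (q : ℝ) ^ C / 2 * ((q : ℝ) ^ Fintype.card (Finset V) / (q : ℝ) ^ C) :=
        mul_le_mul_of_nonneg_right h2 (by positivity)
    _ = (q : ℝ) ^ Fintype.card (Finset V) / 2 := by
        field_simp

/-- **Random colourings.** There are quasirandom colourings without homogeneous sets of size `a`. -/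
theorem exists_random {s q a : ℕ} (hq : 1 ≤ q) {η : ℝ} (hη0 : 0 < η) (hη2 : η ≤ 2)
    (hV : 1 ≤ Fintype.card V)
    (ht : 16 * ((s + 1) ^ (s + 1) : ℕ) * ((s : ℝ) + 1 + 4 * q) ≤ η ^ 2 * Fintype.card V)
    (ha : s + 1 ≤ a)
    (hb : 2 * q * Fintype.card V ^ a ≤ q ^ (a.choose (s + 1))) :
    ∃ D : Finset V → Fin q, (∀ i, Rich (Col s D i) (1 / q) η) ∧
      ∀ S : Finset V, S.card = a → ¬ Hom (s + 1) D S := by
  classical
  set X₁ : Finset (Finset V → Fin q) := univ.filter fun D => ∃ i, ¬ Rich (Col s D i) (1 / q) η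
    with hX₁
  set X₂ : Finset (Finset V → Fin q) := univ.filter fun D =>
    ∃ S : Finset V, S.card = a ∧ Hom (s + 1) D S with hX₂
  have h1 := bad_le hq hη0 hη2 hV ht X₁ (fun D hD => (mem_filter.1 hD).2)
  have h2 := hom_le hq ha hb X₂ (fun D hD => (mem_filter.1 hD).2)
  have h3 : ((X₁ ∪ X₂).card : ℝ) < ((univ : Finset (Finset V → Fin q)).card : ℝ) := by
    have h4 : ((X₁ ∪ X₂).card : ℝ) ≤ X₁.card + X₂.card := by exact_mod_cast card_union_le _ _
    have h5 : ((univ : Finset (Finset V → Fin q)).card : ℝ) =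
        (q : ℝ) ^ Fintype.card (Finset V) := by
      rw [card_univ, Fintype.card_fun, Fintype.card_fin]
      push_cast
      rfl
    have h6 : (0 : ℝ) < (q : ℝ) ^ Fintype.card (Finset V) := by
      have : (0 : ℝ) < (q : ℝ) := by exact_mod_cast hq
      positivity
    rw [h5]
    linarith
  obtain ⟨D, _, hD⟩ := exists_mem_notMem_of_card_lt_card (s := X₁ ∪ X₂) (t := univ)
    (by exact_mod_cast h3)
  rw [mem_union, not_or, mem_filter, mem_filter] at hD
  refine ⟨D, ?_, ?_⟩
  · intro i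
    by_contra h
    exact hD.1 ⟨mem_univ _, i, h⟩
  · intro S hS hH
    exact hD.2 ⟨mem_univ _, S, hS, hH⟩

end Pool.Agent.T2H15.QR
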