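import Pool.Agent.T2H15.QR.Transfer

/-! Tower growth with quasirandom colourings. -/

set_option autoImplicit false

namespace Pool.Agent.T2H15.QR

open Finset TH138.NF

theorem quasirandomTowerGrowth_of {r q : ℕ} (hr : 3 ≤ r) (hq : 2 ≤ q) (h : TowerGrowth r q) :
    QuasirandomTowerGrowth r q := by
  obtain ⟨ε, hε, n₀, hn₀⟩ := h
  obtain ⟨δ, hδ, a₀, ha₀⟩ := transfer hr hq
  have hr0 : (0 : ℝ) < (r : ℝ) := by
    have : 0 < r := by omega
    exact_mod_cast this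
  have hc0 : (0 : ℝ) < δ / (4 * (r : ℝ)) ^ (r - 1) := by positivity
  refine ⟨min (ε / 2) (δ / (4 * (r : ℝ)) ^ (r - 1)), lt_min (by linarith) hc0,
    2 * n₀ + 4 * r * (a₀ + 1), ?_⟩
  intro n hn
  set a : ℕ := n / (2 * r) with ha
  have h2r : 0 < 2 * r := by omega
  have ha1 : a * (2 * r) ≤ n := Nat.div_mul_le_self _ _
  have ha2 : n < (a + 1) * (2 * r) := (Nat.div_lt_iff_lt_mul h2r).1 (Nat.lt_succ_self _)
  have hra : 2 * (r * a) ≤ n := by
    calc 2 * (r * a) = a * (2 * r) := by ring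
      _ ≤ n := ha1
  have haa : a₀ ≤ a := by
    by_contra hcon
    have h1 : (a + 1) * (2 * r) ≤ a₀ * (2 * r) := Nat.mul_le_mul_right _ (by omega)
    have h2 : a₀ * (2 * r) ≤ 4 * r * (a₀ + 1) := by nlinarith
    omega
  have ha4 : n ≤ 4 * r * a := by
    have h1 : 4 * r ≤ n := by
      have : 4 * r * 1 ≤ 4 * r * (a₀ + 1) := Nat.mul_le_mul_left _ (by omega)
      omega
    have h2 : (a + 1) * (2 * r) = 2 * r * a + 2 * r := by ring
    have h3 : 4 * r * a = 2 * (2 * r * a) := by ring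
    omega
  obtain ⟨M, hM, c₀, hc₀⟩ := hn₀ (n - r * a) (by omega)
  have hM1 : 1 ≤ M := by
    obtain ⟨k, hk⟩ : ∃ k, r - 1 = k + 1 := ⟨r - 2, by omega⟩
    rw [hk] at hM
    have h1 : (0 : ℝ) < tow (k + 1) (ε * ((n - r * a : ℕ) : ℝ)) :=
      Real.rpow_pos_of_pos (by norm_num) _
    have h2 : (0 : ℝ) < (M : ℝ) := lt_of_lt_of_le h1 hM
    exact_mod_cast h2
  obtain ⟨N, hN, c, hc1, hc2⟩ := ha₀ a haa (n - r * a) M hM1 c₀ hc₀
  refine ⟨N, ?_, c, ?_, ?_⟩
  · refine le_trans ?_ (hM.trans (by exact_mod_cast hN))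
    apply tow_mono
    have h1 : min (ε / 2) (δ / (4 * (r : ℝ)) ^ (r - 1)) * n ≤ ε / 2 * n :=
      mul_le_mul_of_nonneg_right (min_le_left _ _) (Nat.cast_nonneg _)
    have h2 : (n : ℝ) ≤ 2 * ((n - r * a : ℕ) : ℝ) := by
      have : n ≤ 2 * (n - r * a) := by omega
      exact_mod_cast this
    nlinarith
  · intro S hS
    exact hc1 S (by omega)
  · intro i B hB
    refine (hc2 i B hB).trans ?_
    apply mul_le_mul_of_nonneg_right _ (by positivity)
    apply Real.rpow_le_rpow_of_exponent_le (by norm_num)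
    apply neg_le_neg
    have h1 : (n : ℝ) ^ (r - 1) ≤ (4 * r * a : ℝ) ^ (r - 1) := by
      apply pow_le_pow_left₀ (Nat.cast_nonneg _)
      exact_mod_cast ha4
    calc min (ε / 2) (δ / (4 * (r : ℝ)) ^ (r - 1)) * (n : ℝ) ^ (r - 1)
        ≤ δ / (4 * (r : ℝ)) ^ (r - 1) * (n : ℝ) ^ (r - 1) :=
          mul_le_mul_of_nonneg_right (min_le_right _ _) (by positivity)
      _ ≤ δ / (4 * (r : ℝ)) ^ (r - 1) * (4 * r * a : ℝ) ^ (r - 1) :=
          mul_le_mul_of_nonneg_left h1 hc0.le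
      _ = δ * (a : ℝ) ^ (r - 1) := by
          rw [mul_pow (4 * (r : ℝ)) (a : ℝ)]
          field_simp

theorem towerGrowth_of {r q : ℕ} (h : QuasirandomTowerGrowth r q) : TowerGrowth r q := by
  obtain ⟨ε, hε, n₀, hn₀⟩ := h
  refine ⟨ε, hε, n₀, fun n hn => ?_⟩
  obtain ⟨N, hN, c, hc1, _⟩ := hn₀ n hn
  exact ⟨N, hN, c, hc1⟩

/-- the stepping-up colourings -/
theorem towerGrowth_four {r : ℕ} (hr : 3 ≤ r) : TowerGrowth r 4 := by
  classical
  obtain ⟨s, rfl⟩ : ∃ s, r = s + 3 := ⟨r - 3, by omega⟩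
  refine ⟨1 / 2 ^ (s + 5), by positivity, 2 ^ (s + 5) + 2 ^ (s + 1) * (s + 5), ?_⟩
  intro n hn
  set j : ℕ := n / 2 ^ (s + 4) with hj
  have h2p : 0 < 2 ^ (s + 4) := by positivity
  have hj1 : j * 2 ^ (s + 4) ≤ n := Nat.div_mul_le_self _ _
  have hj2 : n < (j + 1) * 2 ^ (s + 4) := (Nat.div_lt_iff_lt_mul h2p).1 (Nat.lt_succ_self _)
  have hjn : n ≤ 2 ^ (s + 5) * j := by
    have h1 : 2 ^ (s + 5) = 2 * 2 ^ (s + 4) := by ring
    have h2 : (j + 1) * 2 ^ (s + 4) = 2 ^ (s + 4) * j + 2 ^ (s + 4) := by ring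
    have h3 : 2 ^ (s + 5) * j = 2 * (2 ^ (s + 4) * j) := by ring
    omega
  have hsize : 2 ^ s * (4 * j + s + 5) ≤ n := by
    have h1 : 4 * (2 ^ s * (4 * j)) = j * 2 ^ (s + 4) := by ring
    have h2 : 2 * (2 ^ s * (s + 5)) = 2 ^ (s + 1) * (s + 5) := by ring
    have h3 : 2 ^ s * (4 * j + s + 5) = 2 ^ s * (4 * j) + 2 ^ s * (s + 5) := by ring
    have h4 : 4 * (2 ^ s * (4 * j)) ≤ n := h1 ▸ hj1
    have h5 : 2 * (2 ^ s * (s + 5)) ≤ n := by
      rw [h2]
      exact le_trans (Nat.le_add_left _ _) hn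
    rw [h3]
    generalize 2 ^ s * (4 * j) = x at h4
    generalize 2 ^ s * (s + 5) = y at h5
    omega
  obtain ⟨N, hN, _, c, _, _, hc⟩ := high s j
  refine ⟨N, ?_, ?_⟩
  · rw [show s + 3 - 1 = s + 2 by omega, hN]
    apply tow_mono
    rw [one_div, inv_mul_le_iff₀ (by positivity)]
    have : ((n : ℕ) : ℝ) ≤ ((2 ^ (s + 5) * j : ℕ) : ℝ) := by exact_mod_cast hjn
    push_cast at this
    exact this
  · let e : Bool × Bool ≃ Fin 4 := Fintype.equivFinOfCardEq (by simp)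
    refine ⟨fun A => e (c (A.map Fin.valEmbedding)), ?_⟩
    intro S hS hH
    obtain ⟨S', hS', hS'c⟩ := exists_subset_card_eq (s := S) (n := 2 ^ s * (4 * j + s + 5))
      (by omega)
    refine hc (S'.map Fin.valEmbedding) ?_ (by rw [card_map, hS'c]) ?_
    · intro x hx
      obtain ⟨y, _, rfl⟩ := mem_map.1 hx
      exact mem_range.2 y.2
    · have key : ∀ A ⊆ S'.map Fin.valEmbedding, ∃ B ⊆ S, A = B.map Fin.valEmbedding := by
        intro A hA
        refine ⟨S'.filter fun y => (y : ℕ) ∈ A, (filter_subset _ _).trans hS', ?_⟩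
        ext x
        rw [mem_map]
        constructor
        · intro hx
          obtain ⟨y, hy, rfl⟩ := mem_map.1 (hA hx)
          exact ⟨y, mem_filter.2 ⟨hy, hx⟩, rfl⟩
        · rintro ⟨y, hy, rfl⟩
          exact (mem_filter.1 hy).2
      intro A hA B hB hAc hBc
      obtain ⟨A', hA', rfl⟩ := key A hA
      obtain ⟨B', hB', rfl⟩ := key B hB
      rw [card_map] at hAc hBc
      exact e.injective (hH A' hA' B' hB' hAc hBc)

end Pool.Agent.T2H15.QR
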