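import Pool.Agent.T2H15.QR.Step

/-! Random colourings are quasirandom: exponential moments and the union bound. -/

set_option autoImplicit false

namespace Pool.Agent.T2H15.QR

open Finset

/-- one factor of the exponential moment -/
theorem factor_le {q : ℕ} (hq : 1 ≤ q) (i : Fin q) {w : ℝ} (hw0 : 0 ≤ w) (hw1 : w ≤ 1) :
    ∑ a : Fin q, Real.exp (w * (1 / q - if a = i then 1 else 0)) ≤ q * Real.exp (w ^ 2) := by
  have hq' : (1 : ℝ) ≤ (q : ℝ) := by exact_mod_cast hq
  have hq0 : (0 : ℝ) < (q : ℝ) := by linarith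
  have h1 : ∀ a : Fin q, Real.exp (w * (1 / q - if a = i then 1 else 0)) ≤
      1 + w * (1 / q - if a = i then 1 else 0) + w ^ 2 := by
    intro a
    set y : ℝ := 1 / q - if a = i then 1 else 0 with hy
    have hy1 : |y| ≤ 1 := by
      rw [hy]
      have h2 : (0 : ℝ) < 1 / q := by positivity
      have h3 : (1 : ℝ) / q ≤ 1 := by
        rw [div_le_one hq0]
        exact hq'
      split_ifs
      · rw [abs_le]
        constructor <;> linarith
      · rw [abs_le]
        constructor <;> linarith
    have h2 : |w * y| ≤ w := by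
      rw [abs_mul, abs_of_nonneg hw0]
      nlinarith [abs_nonneg y]
    have h3 := Real.abs_exp_sub_one_sub_id_le (h2.trans hw1)
    have h4 := (abs_le.1 h3).2
    have h5 : (w * y) ^ 2 ≤ w ^ 2 := by
      rw [← sq_abs (w * y)]
      exact pow_le_pow_left₀ (abs_nonneg _) h2 2
    linarith
  refine (sum_le_sum fun a _ => h1 a).trans ?_
  rw [sum_add_distrib, sum_add_distrib, ← mul_sum, sum_sub_distrib, sum_ite_eq' univ i]
  simp only [sum_const, card_univ, Fintype.card_fin, nsmul_eq_mul, mul_one, mem_univ, if_true]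
  have h2 : (q : ℝ) * (1 / q) - 1 = 0 := by
    field_simp
    ring
  rw [h2, mul_zero, add_zero]
  have h3 := Real.add_one_le_exp (w ^ 2)
  nlinarith

/-- the exponential moment of a sum of independent terms -/
theorem moment_le {F : Type} [Fintype F] [DecidableEq F] {q : ℕ} (hq : 1 ≤ q) (i : Fin q)
    (w : F → ℝ) (hw0 : ∀ e, 0 ≤ w e) (hw1 : ∀ e, w e ≤ 1) :
    ∑ D : F → Fin q, Real.exp (∑ e, w e * (1 / q - if D e = i then 1 else 0)) ≤
      (q : ℝ) ^ Fintype.card F * Real.exp (∑ e, w e ^ 2) := by
  have h1 : ∀ D : F → Fin q, Real.exp (∑ e, w e * (1 / q - if D e = i then 1 else 0)) =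
      ∏ e, Real.exp (w e * (1 / q - if D e = i then 1 else 0)) := fun D => Real.exp_sum _ _
  rw [sum_congr rfl fun D _ => h1 D]
  have h2 := Finset.prod_univ_sum (fun _ : F => (univ : Finset (Fin q)))
    (fun e a => Real.exp (w e * (1 / q - if a = i then 1 else 0)))
  rw [Fintype.piFinset_univ] at h2
  rw [← h2]
  have h3 : ∏ e : F, ∑ a : Fin q, Real.exp (w e * (1 / q - if a = i then 1 else 0)) ≤
      ∏ e : F, ((q : ℝ) * Real.exp (w e ^ 2)) := by
    apply prod_le_prod
    · intro e _
      exact sum_nonneg fun a _ => (Real.exp_pos _).le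
    · intro e _
      exact factor_le hq i (hw0 e) (hw1 e)
  refine h3.trans (le_of_eq ?_)
  rw [prod_mul_distrib, prod_const, card_univ, Real.exp_sum]

open Classical in
/-- Markov's inequality. -/
theorem markov {F : Type} [Fintype F] [DecidableEq F] {q : ℕ} (hq : 1 ≤ q) (i : Fin q)
    (w : F → ℝ) (hw0 : ∀ e, 0 ≤ w e) (hw1 : ∀ e, w e ≤ 1) (y : ℝ) :
    ((univ.filter fun D : F → Fin q =>
      y ≤ ∑ e, w e * (1 / q - if D e = i then 1 else 0)).card : ℝ) ≤
      (q : ℝ) ^ Fintype.card F * Real.exp (∑ e, w e ^ 2 - y) := by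
  have h1 := moment_le hq i w hw0 hw1
  set X : Finset (F → Fin q) := univ.filter fun D : F → Fin q =>
      y ≤ ∑ e, w e * (1 / q - if D e = i then 1 else 0) with hX
  have h2 : (X.card : ℝ) * Real.exp y ≤
      ∑ D : F → Fin q, Real.exp (∑ e, w e * (1 / q - if D e = i then 1 else 0)) := by
    calc (X.card : ℝ) * Real.exp y = ∑ D ∈ X, Real.exp y := by
          rw [sum_const, nsmul_eq_mul]
      _ ≤ ∑ D ∈ X, Real.exp (∑ e, w e * (1 / q - if D e = i then 1 else 0)) := by
          apply sum_le_sum
          intro D hD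
          exact Real.exp_le_exp.2 (mem_filter.1 hD).2
      _ ≤ _ := sum_le_univ_sum_of_nonneg fun D => (Real.exp_pos _).le
  rw [Real.exp_sub, ← mul_div_assoc, le_div_iff₀ (Real.exp_pos y)]
  exact h2.trans h1

variable {V : Type} [Fintype V]

theorem cnt_le_add {s : ℕ} (P Q : (Fin s → V) → Prop) :
    cnt P ≤ cnt (fun x => P x ∧ Q x) + cnt (fun x => ¬ Q x) := by
  classical
  rw [cnt_eq (fun x => P x ∧ Q x), cnt_eq (fun x => ¬ Q x)]
  refine (cnt_le_card ((univ.filter fun x => P x ∧ Q x) ∪ (univ.filter fun x => ¬ Q x)) ?_).trans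
    (card_union_le _ _)
  intro x hx
  rw [mem_union, mem_filter, mem_filter]
  by_cases hQ : Q x
  · exact Or.inl ⟨mem_univ _, hx, hQ⟩
  · exact Or.inr ⟨mem_univ _, hQ⟩

/-- Few tuples are not injective. -/
theorem cnt_not_injective (s : ℕ) :
    cnt (fun x : Fin (s + 1) → V => ¬ Function.Injective x) ≤
      (s + 1) ^ 2 * Fintype.card V ^ s := by
  classical
  have h1 : (univ.filter fun x : Fin (s + 1) → V => ¬ Function.Injective x) ⊆
      (univ : Finset (Fin (s + 1))).biUnion fun a => (univ.erase a).biUnion fun b =>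
        univ.filter fun x : Fin (s + 1) → V => x a = x b := by
    intro x hx
    have h2 := (mem_filter.1 hx).2
    unfold Function.Injective at h2
    push Not at h2
    obtain ⟨a, b, h3, h4⟩ := h2
    rw [mem_biUnion]
    refine ⟨a, mem_univ _, ?_⟩
    rw [mem_biUnion]
    exact ⟨b, mem_erase.2 ⟨fun h => h4 h.symm, mem_univ _⟩, mem_filter.2 ⟨mem_univ _, h3⟩⟩
  have h2 : ∀ a b : Fin (s + 1), a ≠ b →
      (univ.filter fun x : Fin (s + 1) → V => x a = x b).card ≤ Fintype.card V ^ s := by
    intro a b hab
    have h3 : (univ.filter fun x : Fin (s + 1) → V => x a = x b).card ≤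
        (univ : Finset (Fin s → V)).card := by
      apply card_le_card_of_injOn (fun x => b.removeNth x) (fun _ _ => mem_coe.2 (mem_univ _))
      intro x hx y hy hxy
      have hx' := (mem_filter.1 (mem_coe.1 hx)).2
      have hy' := (mem_filter.1 (mem_coe.1 hy)).2
      obtain ⟨a', rfl⟩ := Fin.exists_succAbove_eq hab
      have hxy' : ∀ j, x (b.succAbove j) = y (b.succAbove j) := fun j => congrFun hxy j
      funext j
      rcases eq_or_ne j b with rfl | hj
      · rw [← hx', ← hy']
        exact hxy' a'
      · obtain ⟨j', rfl⟩ := Fin.exists_succAbove_eq hj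
        exact hxy' j'
    rwa [card_univ, Fintype.card_fun, Fintype.card_fin] at h3
  rw [cnt_eq]
  refine (card_le_card h1).trans ?_
  refine card_biUnion_le.trans ?_
  calc ∑ a : Fin (s + 1), ((univ.erase a).biUnion fun b =>
        univ.filter fun x : Fin (s + 1) → V => x a = x b).card
      ≤ ∑ a : Fin (s + 1), (s + 1) * Fintype.card V ^ s := by
        apply sum_le_sum
        intro a _
        refine card_biUnion_le.trans ?_
        calc ∑ b ∈ univ.erase a, (univ.filter fun x : Fin (s + 1) → V => x a = x b).card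
            ≤ ∑ b ∈ univ.erase a, Fintype.card V ^ s := by
              apply sum_le_sum
              intro b hb
              exact h2 a b (fun h => (mem_erase.1 hb).1 h.symm)
          _ ≤ (s + 1) * Fintype.card V ^ s := by
              rw [sum_const, smul_eq_mul]
              apply Nat.mul_le_mul_right
              refine (card_le_card (erase_subset _ _)).trans ?_
              rw [card_univ, Fintype.card_fin]
    _ = (s + 1) ^ 2 * Fintype.card V ^ s := by
        rw [sum_const, card_univ, Fintype.card_fin, smul_eq_mul]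
        ring

variable [DecidableEq V]

/-- the number of enumerations of `e` in the cylinder intersection of `T` -/
noncomputable def wt {s : ℕ} (T : Fin (s + 1) → (Fin s → V) → Prop) (e : Finset V) : ℕ :=
  cnt fun x => Cyl T x ∧ Function.Injective x ∧ univ.image x = e

theorem wt_le {s : ℕ} (T : Fin (s + 1) → (Fin s → V) → Prop) (e : Finset V) :
    wt T e ≤ (s + 1) ^ (s + 1) := by
  unfold wt
  by_cases he : e.card = s + 1
  · have h1 : cnt (fun x : Fin (s + 1) → V =>
        Cyl T x ∧ Function.Injective x ∧ univ.image x = e) ≤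
        (Fintype.piFinset fun _ : Fin (s + 1) => e).card := by
      apply cnt_le_card
      intro x hx
      rw [Fintype.mem_piFinset]
      intro j
      rw [← hx.2.2]
      exact mem_image_of_mem _ (mem_univ _)
    rwa [Fintype.card_piFinset, prod_const, card_univ, Fintype.card_fin, he] at h1
  · rw [cnt_eq_zero]
    · exact Nat.zero_le _
    · rintro x ⟨_, h2, h3⟩
      apply he
      rw [← h3, card_image_of_injective _ h2, card_univ, Fintype.card_fin]

theorem sum_wt {s : ℕ} (T : Fin (s + 1) → (Fin s → V) → Prop) (P : Finset V → Prop)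
    [DecidablePred P] :
    ∑ e : Finset V, wt T e * (if P e then 1 else 0) =
      cnt fun x => Cyl T x ∧ Function.Injective x ∧ P (univ.image x) := by
  have h0 : cnt (fun x => Cyl T x ∧ Function.Injective x ∧ P (univ.image x)) =
      ∑ e : Finset V, cnt fun x => (Cyl T x ∧ Function.Injective x ∧ P (univ.image x)) ∧
        univ.image x = e := cnt_fiber _ _
  rw [h0]
  apply sum_congr rfl
  intro e _
  by_cases he : P e
  · rw [if_pos he, mul_one]
    unfold wt
    apply cnt_congr
    intro x
    constructor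
    · rintro ⟨h1, h2, h3⟩
      exact ⟨⟨h1, h2, by rw [h3]; exact he⟩, h3⟩
    · rintro ⟨⟨h1, h2, _⟩, h4⟩
      exact ⟨h1, h2, h4⟩
  · rw [if_neg he, mul_zero]
    symm
    apply cnt_eq_zero
    rintro x ⟨⟨_, _, h3⟩, h4⟩
    exact he (by rw [← h4]; exact h3)

end Pool.Agent.T2H15.QR
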