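import Mathlib

/-! Cylinder intersections and rich relations: the inductive step. -/

set_option autoImplicit false

namespace Pool.Agent.T2H15.QR

open Finset

variable {V : Type} [Fintype V]

/-- The cylinder intersection given by `T`: `T j` must hold for the tuple without coordinate `j`. -/
def Cyl {s : ℕ} (T : Fin (s + 1) → (Fin s → V) → Prop) (x : Fin (s + 1) → V) : Prop :=
  ∀ j, T j (j.removeNth x)

open Classical in
/-- The number of tuples with the property `P`. -/
noncomputable def cnt {s : ℕ} (P : (Fin s → V) → Prop) : ℕ := (univ.filter P).card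

theorem cnt_eq {s : ℕ} (P : (Fin s → V) → Prop) [DecidablePred P] :
    cnt P = (univ.filter P).card := by
  unfold cnt
  apply congrArg Finset.card
  ext x
  simp only [mem_filter]

theorem cnt_le_card {s : ℕ} {P : (Fin s → V) → Prop} (S : Finset (Fin s → V))
    (h : ∀ x, P x → x ∈ S) : cnt P ≤ S.card := by
  classical
  unfold cnt
  apply card_le_card
  intro x hx
  exact h x (mem_filter.1 hx).2

/-- counting by the value of a function -/
theorem cnt_fiber {s : ℕ} {F : Type} [Fintype F] (f : (Fin s → V) → F)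
    (P : (Fin s → V) → Prop) : cnt P = ∑ e : F, cnt fun x => P x ∧ f x = e := by
  classical
  unfold cnt
  rw [card_eq_sum_card_fiberwise (f := f) (t := univ) (fun _ _ => mem_coe.2 (mem_univ _))]
  apply sum_congr rfl
  intro e _
  apply congrArg Finset.card
  ext x
  simp only [mem_filter, mem_univ, true_and]

theorem cnt_mono {s : ℕ} {P Q : (Fin s → V) → Prop} (h : ∀ x, P x → Q x) : cnt P ≤ cnt Q := by
  classical
  unfold cnt
  apply card_le_card
  intro x hx
  simp only [mem_filter, mem_univ, true_and] at hx ⊢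
  exact h x hx

theorem cnt_congr {s : ℕ} {P Q : (Fin s → V) → Prop} (h : ∀ x, P x ↔ Q x) : cnt P = cnt Q :=
  le_antisymm (cnt_mono fun x => (h x).1) (cnt_mono fun x => (h x).2)

theorem cnt_le {s : ℕ} (P : (Fin s → V) → Prop) : cnt P ≤ Fintype.card V ^ s := by
  classical
  unfold cnt
  refine (card_le_univ _).trans ?_
  rw [Fintype.card_fun, Fintype.card_fin]

/-- `E` has density at least `α` on every cylinder intersection, up to the error `ε`. -/
def Rich {s : ℕ} (E : (Fin (s + 1) → V) → Prop) (α ε : ℝ) : Prop :=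
  ∀ T : Fin (s + 1) → (Fin s → V) → Prop,
    α * cnt (Cyl T) - ε * (Fintype.card V : ℝ) ^ (s + 1) ≤ cnt (fun x => Cyl T x ∧ E x)

theorem Rich.mono {s : ℕ} {E : (Fin (s + 1) → V) → Prop} {α ε ε' : ℝ} (h : Rich E α ε)
    (hε : ε ≤ ε') : Rich E α ε' := by
  intro T
  have h1 := h T
  have h2 : ε * (Fintype.card V : ℝ) ^ (s + 1) ≤ ε' * (Fintype.card V : ℝ) ^ (s + 1) :=
    mul_le_mul_of_nonneg_right hε (by positivity)
  linarith

theorem rich_true {s : ℕ} {ε : ℝ} (hε : 0 ≤ ε) :
    Rich (fun _ : Fin (s + 1) → V => True) 1 ε := by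
  intro T
  have h1 : cnt (fun x => Cyl T x ∧ True) = cnt (Cyl T) := cnt_congr fun x => by simp
  rw [h1, one_mul]
  have h2 : 0 ≤ ε * (Fintype.card V : ℝ) ^ (s + 1) := by positivity
  linarith

/-- Counting pairs: first coordinate and the rest. -/
theorem cnt_cons {s : ℕ} (P : (Fin (s + 1) → V) → Prop) :
    cnt P = ∑ x : V, cnt (fun w : Fin s → V => P (Fin.cons x w)) := by
  classical
  unfold cnt
  have h1 : ∀ x : V, (univ.filter fun w : Fin s → V => P (Fin.cons x w)).card
      = ∑ w : Fin s → V, if P (Fin.cons x w) then 1 else 0 := by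
    intro x
    rw [card_filter]
  rw [sum_congr rfl (fun x _ => h1 x), card_filter,
    ← Fintype.sum_prod_type' (f := fun (x : V) (w : Fin s → V) =>
      if P (Fin.cons x w) then 1 else 0)]
  refine Fintype.sum_equiv (Fin.consEquiv (fun _ : Fin (s + 1) => V)).symm _ _ ?_
  intro x
  have : (Fin.consEquiv (fun _ : Fin (s + 1) => V)).symm x = (x 0, Fin.tail x) := rfl
  rw [this]
  simp only [Fin.cons_self_tail]

theorem cnt_eq_zero {s : ℕ} {P : (Fin s → V) → Prop} (h : ∀ x, ¬ P x) : cnt P = 0 := by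
  classical
  unfold cnt
  rw [card_eq_zero, filter_eq_empty_iff]
  intro x _
  exact h x

omit [Fintype V] in
theorem removeNth_zero_cons {s : ℕ} (x : V) (w : Fin (s + 1) → V) :
    (0 : Fin (s + 2)).removeNth (Fin.cons x w : Fin (s + 2) → V) = w := by
  funext i
  simp [Fin.removeNth]

omit [Fintype V] in
theorem removeNth_succ_cons {s : ℕ} (x : V) (w : Fin (s + 1) → V) (j : Fin (s + 1)) :
    (j.succ).removeNth (Fin.cons x w : Fin (s + 2) → V) = Fin.cons x (j.removeNth w) := by
  funext i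
  refine Fin.cases ?_ (fun i => ?_) i
  · simp [Fin.removeNth]
  · simp [Fin.removeNth]

/-- **The step.** For all but `lam * |V|` vertices `x`, adding the condition that `x, w` is in the
rich relation `E₂` keeps the relation `E₁` rich. -/
theorem step {s : ℕ} {E₁ : (Fin (s + 1) → V) → Prop} {E₂ : (Fin (s + 2) → V) → Prop}
    {α β ε δ lam : ℝ} (h₁ : Rich E₁ α ε) (h₂ : Rich E₂ β δ) (hβ0 : 0 ≤ β) (hβ1 : β ≤ 1)
    (hε : 0 ≤ ε) (hδ : 0 < δ) (hl : 0 < lam) (X : Finset V)
    (hX : ∀ x ∈ X, ¬ Rich (fun w => E₁ w ∧ E₂ (Fin.cons x w)) (α * β) (ε + δ / lam)) :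
    (X.card : ℝ) ≤ lam * Fintype.card V := by
  classical
  rcases X.eq_empty_or_nonempty with rfl | hXne
  · rw [card_empty, Nat.cast_zero]
    positivity
  have hN : 0 < Fintype.card V := Fintype.card_pos_iff.2 ⟨hXne.choose⟩
  have hN' : (0 : ℝ) < (Fintype.card V : ℝ) := by exact_mod_cast hN
  have hX' : ∀ x ∈ X, ∃ T : Fin (s + 1) → (Fin s → V) → Prop,
      (cnt (fun w => Cyl T w ∧ E₁ w ∧ E₂ (Fin.cons x w)) : ℝ) <
        α * β * cnt (Cyl T) - (ε + δ / lam) * (Fintype.card V : ℝ) ^ (s + 1) := by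
    intro x hx
    have := hX x hx
    unfold Rich at this
    push Not at this
    exact this
  choose! T hT using hX'
  set T' : Fin (s + 2) → (Fin (s + 1) → V) → Prop :=
    Fin.cons E₁ (fun j u => u 0 ∈ X ∧ T (u 0) j (Fin.tail u)) with hT'
  have hcyl : ∀ (x : V) (w : Fin (s + 1) → V), Cyl T' (Fin.cons x w) ↔
      (x ∈ X ∧ Cyl (T x) w ∧ E₁ w) := by
    intro x w
    unfold Cyl
    constructor
    · intro h
      have h0 := h 0
      rw [hT', Fin.cons_zero, removeNth_zero_cons] at h0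
      have hs : ∀ j : Fin (s + 1), x ∈ X ∧ T x j (j.removeNth w) := by
        intro j
        have hj := h j.succ
        rw [hT', Fin.cons_succ, removeNth_succ_cons] at hj
        simpa using hj
      exact ⟨(hs 0).1, fun j => (hs j).2, h0⟩
    · rintro ⟨hx, hc, he⟩ j
      refine Fin.cases ?_ (fun j => ?_) j
      · rw [hT', Fin.cons_zero, removeNth_zero_cons]
        exact he
      · rw [hT', Fin.cons_succ, removeNth_succ_cons]
        simpa using ⟨hx, hc j⟩
  have hA : (cnt (Cyl T') : ℝ) = ∑ x ∈ X, (cnt (fun w => Cyl (T x) w ∧ E₁ w) : ℝ) := by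
    rw [cnt_cons]
    push_cast
    rw [← Finset.sum_subset (Finset.subset_univ X)]
    · apply sum_congr rfl
      intro x hx
      congr 1
      apply cnt_congr
      intro w
      rw [hcyl]
      simp [hx]
    · intro x _ hx
      have : cnt (fun w => Cyl T' (Fin.cons x w)) = 0 :=
        cnt_eq_zero fun w hw => hx ((hcyl x w).1 hw).1
      rw [this, Nat.cast_zero]
  have hB : (cnt (fun y => Cyl T' y ∧ E₂ y) : ℝ) =
      ∑ x ∈ X, (cnt (fun w => Cyl (T x) w ∧ E₁ w ∧ E₂ (Fin.cons x w)) : ℝ) := by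
    rw [cnt_cons]
    push_cast
    rw [← Finset.sum_subset (Finset.subset_univ X)]
    · apply sum_congr rfl
      intro x hx
      congr 1
      apply cnt_congr
      intro w
      rw [hcyl]
      simp only [hx, true_and, and_assoc]
    · intro x _ hx
      have : cnt (fun w => Cyl T' (Fin.cons x w) ∧ E₂ (Fin.cons x w)) = 0 :=
        cnt_eq_zero fun w hw => hx ((hcyl x w).1 hw.1).1
      rw [this, Nat.cast_zero]
  have hC := h₂ T'
  rw [hA, hB] at hC
  have hD : ∀ x ∈ X, (cnt (fun w => Cyl (T x) w ∧ E₁ w ∧ E₂ (Fin.cons x w)) : ℝ) ≤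
      β * cnt (fun w => Cyl (T x) w ∧ E₁ w) - δ / lam * (Fintype.card V : ℝ) ^ (s + 1) := by
    intro x hx
    have h1 := hT x hx
    have h2 := h₁ (T x)
    have h3 : β * (α * cnt (Cyl (T x)) - ε * (Fintype.card V : ℝ) ^ (s + 1)) ≤
        β * cnt (fun w => Cyl (T x) w ∧ E₁ w) := mul_le_mul_of_nonneg_left h2 hβ0
    have h4 : β * (ε * (Fintype.card V : ℝ) ^ (s + 1)) ≤ ε * (Fintype.card V : ℝ) ^ (s + 1) := by
      have : 0 ≤ ε * (Fintype.card V : ℝ) ^ (s + 1) := by positivity
      nlinarith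
    nlinarith
  have hE := sum_le_sum hD
  rw [sum_sub_distrib, ← mul_sum, sum_const, nsmul_eq_mul] at hE
  have hF : (X.card : ℝ) * (δ / lam * (Fintype.card V : ℝ) ^ (s + 1)) ≤
      δ * (Fintype.card V : ℝ) ^ (s + 2) := by linarith
  have hG : (0 : ℝ) < (Fintype.card V : ℝ) ^ (s + 1) := by positivity
  have hH : (X.card : ℝ) * (δ / lam) ≤ δ * Fintype.card V := by
    have : (X.card : ℝ) * (δ / lam) * (Fintype.card V : ℝ) ^ (s + 1) ≤
        (δ * Fintype.card V) * (Fintype.card V : ℝ) ^ (s + 1) := by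
      calc _ = (X.card : ℝ) * (δ / lam * (Fintype.card V : ℝ) ^ (s + 1)) := by ring
        _ ≤ δ * (Fintype.card V : ℝ) ^ (s + 2) := hF
        _ = _ := by ring
    exact le_of_mul_le_mul_right this hG
  have hI : (X.card : ℝ) * (δ / lam) = δ * (X.card / lam) := by ring
  rw [hI] at hH
  have hJ := le_of_mul_le_mul_left hH hδ
  rwa [div_le_iff₀ hl, mul_comm] at hJ

end Pool.Agent.T2H15.QR
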