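import Pool.Agent.T2H15.QR.Univ

/-! From arbitrary colourings to quasirandom colourings. -/

set_option autoImplicit false

namespace Pool.Agent.T2H15.QR

open Finset

/-! ### transport along an equivalence -/

theorem cnt_equiv {V W : Type} [Fintype V] [Fintype W] (e : V ≃ W) {s : ℕ}
    (P : (Fin s → W) → Prop) : cnt P = cnt fun x : Fin s → V => P (e ∘ x) := by
  classical
  rw [cnt_eq, cnt_eq]
  symm
  refine card_bij (fun x _ => e ∘ x) ?_ ?_ ?_
  · intro x hx
    rw [mem_filter] at hx ⊢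
    exact ⟨mem_univ _, hx.2⟩
  · intro x _ y _ h
    funext j
    exact e.injective (congrFun h j)
  · intro y hy
    rw [mem_filter] at hy
    refine ⟨e.symm ∘ y, mem_filter.2 ⟨mem_univ _, ?_⟩, ?_⟩
    · have : e ∘ (e.symm ∘ y) = y := by
        funext j
        exact e.apply_symm_apply _
      rw [this]
      exact hy.2
    · funext j
      exact e.apply_symm_apply _

/-- the transported colouring -/
def move {V W κ : Type} (e : V ≃ W) (c : Finset V → κ) (A : Finset W) : κ :=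
  c (A.map e.symm.toEmbedding)

theorem rich_move {V W κ : Type} [Fintype V] [Fintype W] [DecidableEq V] [DecidableEq W]
    (e : V ≃ W) {s : ℕ} {c : Finset V → κ} {i : κ} {α η : ℝ} (h : Rich (Col s c i) α η) :
    Rich (Col s (move e c) i) α η := by
  intro T
  have h1 := h (fun j u => T j (e ∘ u))
  have h2 : cnt (Cyl T) = cnt (Cyl fun j (u : Fin s → V) => T j (e ∘ u)) := by
    rw [cnt_equiv e]
    rfl
  have h3 : cnt (fun x => Cyl T x ∧ Col s (move e c) i x) =
      cnt (fun x => Cyl (fun j (u : Fin s → V) => T j (e ∘ u)) x ∧ Col s c i x) := by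
    rw [cnt_equiv e]
    apply cnt_congr
    intro x
    apply and_congr Iff.rfl
    unfold Col move
    have h4 : (univ.image (e ∘ x)).map e.symm.toEmbedding = univ.image x := by
      ext v
      rw [mem_map, mem_image]
      constructor
      · rintro ⟨w, hw, rfl⟩
        obtain ⟨j, _, rfl⟩ := mem_image.1 hw
        exact ⟨j, mem_univ _, (e.symm_apply_apply _).symm⟩
      · rintro ⟨j, _, rfl⟩
        exact ⟨e (x j), mem_image.2 ⟨j, mem_univ _, rfl⟩, e.symm_apply_apply _⟩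
    rw [h4]
    apply and_congr _ Iff.rfl
    exact ⟨fun h5 a b hab => h5 (congrArg e hab), fun h5 => e.injective.comp h5⟩
  rw [h2, h3, ← Fintype.card_congr e]
  exact h1

theorem hom_move {V W κ : Type} (e : V ≃ W) {r : ℕ} {c : Finset V → κ} {S : Finset W}
    (h : Hom r (move e c) S) : Hom r c (S.map e.symm.toEmbedding) := by
  have key : ∀ A ⊆ S.map e.symm.toEmbedding, ∃ B ⊆ S, A = B.map e.symm.toEmbedding := by
    intro A hA
    refine ⟨A.map e.toEmbedding, ?_, ?_⟩
    · intro w hw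
      obtain ⟨v, hv, rfl⟩ := mem_map.1 hw
      obtain ⟨w', hw', h1⟩ := mem_map.1 (hA hv)
      have : e v = w' := by
        rw [← h1]
        exact e.apply_symm_apply _
      show e v ∈ S
      rw [this]
      exact hw'
    · ext v
      rw [mem_map]
      constructor
      · intro hv
        exact ⟨e v, mem_map.2 ⟨v, hv, rfl⟩, e.symm_apply_apply _⟩
      · rintro ⟨w, hw, rfl⟩
        obtain ⟨v, hv, rfl⟩ := mem_map.1 hw
        have : e.symm (e v) = v := e.symm_apply_apply _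
        show e.symm (e v) ∈ A
        rw [this]
        exact hv
  intro A hA B hB hAc hBc
  obtain ⟨A', hA', rfl⟩ := key A hA
  obtain ⟨B', hB', rfl⟩ := key B hB
  rw [card_map] at hAc hBc
  exact h A' hA' B' hB' hAc hBc

/-! ### numbers -/

theorem two_ab {s a b : ℕ} (ha : 2 ^ (s + 3) * (s + 1).factorial ≤ a) (hs : 2 * s ≤ a)
    (hb : b * (2 ^ (s + 3) * (s + 1).factorial) ≤ a ^ s) :
    2 * a * b + 2 ≤ a.choose (s + 1) := by
  set F := (s + 1).factorial with hF
  have hF0 : 0 < F := Nat.factorial_pos _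
  have h1 : (a + 1 - (s + 1)) ^ (s + 1) ≤ F * a.choose (s + 1) := by
    have := Nat.pow_le_choose (α := ℝ) (s + 1) a
    rw [div_le_iff₀ (by exact_mod_cast hF0)] at this
    have h2 : (((a + 1 - (s + 1)) ^ (s + 1) : ℕ) : ℝ) ≤ ((F * a.choose (s + 1) : ℕ) : ℝ) := by
      rw [mul_comm F]
      exact_mod_cast this
    exact_mod_cast h2
  have h2 : a ≤ 2 * (a + 1 - (s + 1)) := by omega
  have h3 : a ^ (s + 1) ≤ 2 ^ (s + 1) * (a + 1 - (s + 1)) ^ (s + 1) := by
    rw [← mul_pow]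
    exact Nat.pow_le_pow_left h2 _
  have h4 : a ^ (s + 1) ≤ 2 ^ (s + 1) * (F * a.choose (s + 1)) :=
    h3.trans (Nat.mul_le_mul_left _ h1)
  have h5 : a * (b * (2 ^ (s + 3) * F)) ≤ a * a ^ s := Nat.mul_le_mul_left _ hb
  have h6 : 2 ^ (s + 3) * F ≤ a ^ (s + 1) := by
    calc 2 ^ (s + 3) * F ≤ a := ha
      _ = a ^ 1 := (pow_one a).symm
      _ ≤ a ^ (s + 1) := by
        apply Nat.pow_le_pow_right
        · have : 0 < 2 ^ (s + 3) * F := by positivity
          omega
        · omega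
  have h7 : (2 * a * b + 2) * (2 ^ (s + 1) * F) ≤ a.choose (s + 1) * (2 ^ (s + 1) * F) := by
    have e1 : 2 * ((2 * a * b + 2) * (2 ^ (s + 1) * F)) =
        a * (b * (2 ^ (s + 3) * F)) + 2 ^ (s + 3) * F := by
      rw [pow_add, pow_add]
      ring
    have e2 : a * a ^ s = a ^ (s + 1) := by ring
    have e3 : a.choose (s + 1) * (2 ^ (s + 1) * F) = 2 ^ (s + 1) * (F * a.choose (s + 1)) := by ring
    omega
  exact Nat.le_of_mul_le_mul_right h7 (by positivity)

/-- **Transfer.** -/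
theorem transfer {r q : ℕ} (hr : 3 ≤ r) (hq : 2 ≤ q) :
    ∃ δ : ℝ, 0 < δ ∧ ∃ a₀ : ℕ, ∀ a : ℕ, a₀ ≤ a → ∀ n M : ℕ, 1 ≤ M →
      ∀ c₀ : Finset (Fin M) → Fin q, (∀ S : Finset (Fin M), S.card = n → ¬ Hom r c₀ S) →
        ∃ N : ℕ, M ≤ N ∧ ∃ c : Finset (Fin N) → Fin q,
          (∀ S : Finset (Fin N), S.card = n + r * a → ¬ Hom r c S) ∧
            Quasirandom r N q c (2 ^ (-(δ * (a : ℝ) ^ (r - 1)))) := by
  classical
  obtain ⟨s, rfl⟩ : ∃ s, r = s + 1 := ⟨r - 1, by omega⟩
  rw [Nat.add_sub_cancel]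
  have hs2 : 2 ≤ s := by omega
  set K : ℕ := (s + 1) ^ (s + 1) with hK
  have hK1 : 1 ≤ K := Nat.one_le_pow _ _ (by omega)
  set L : ℕ := 4 * K * (s + 1 + 4 * q) with hL
  set G : ℕ := 2 ^ (s + 3) * (s + 1).factorial with hG
  have hF0 : 0 < (s + 1).factorial := Nat.factorial_pos _
  have hG0 : 0 < G := by positivity
  have hGs : s + 1 ≤ G := by
    have h1 : s + 3 < 2 ^ (s + 3) := Nat.lt_two_pow_self
    have h2 : 2 ^ (s + 3) * 1 ≤ G := Nat.mul_le_mul_left _ hF0
    omega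
  have hG0' : (0 : ℝ) < (G : ℝ) := by exact_mod_cast hG0
  refine ⟨1 / (2 * G), by positivity, 2 * G * (q * L + 1), ?_⟩
  intro a ha n M hM c₀ hc₀
  have haG : 2 * G ≤ a := by
    calc 2 * G = 2 * G * 1 := (mul_one _).symm
      _ ≤ 2 * G * (q * L + 1) := Nat.mul_le_mul_left _ (by omega)
      _ ≤ a := ha
  have ha1 : 1 ≤ a := by omega
  set b : ℕ := a ^ s / G with hb
  have hbG : b * G ≤ a ^ s := Nat.div_mul_le_self _ _
  have hab := two_ab (s := s) (a := a) (b := b) (by omega) (by omega) hbG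
  have hq' : (2 : ℝ) ≤ (q : ℝ) := by exact_mod_cast hq
  have hq0 : (0 : ℝ) < (q : ℝ) := by linarith
  -- the error
  have hbr : (a : ℝ) ^ s / G - 1 ≤ (b : ℝ) := by
    have h1 : a ^ s < (b + 1) * G := by
      exact (Nat.div_lt_iff_lt_mul hG0).1 (Nat.lt_succ_self _)
    have h2 : ((a ^ s : ℕ) : ℝ) < (((b + 1) * G : ℕ) : ℝ) := by exact_mod_cast h1
    push_cast at h2
    have h3 : (a : ℝ) ^ s / G < b + 1 := by
      rw [div_lt_iff₀ hG0']
      exact h2
    linarith
  have herr : (q : ℝ) * (L / (q : ℝ) ^ b) ≤ 2 ^ (-(1 / (2 * (G : ℝ)) * (a : ℝ) ^ s)) := by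
    have h1 : ((q * L : ℕ) : ℝ) ≤ (2 : ℝ) ^ ((q * L : ℕ) : ℝ) := by
      rw [Real.rpow_natCast]
      exact_mod_cast Nat.lt_two_pow_self.le
    have h2 : (2 : ℝ) ^ (b : ℝ) ≤ (q : ℝ) ^ b := by
      rw [Real.rpow_natCast]
      exact pow_le_pow_left₀ (by norm_num) hq' _
    have h3 : (0 : ℝ) < 2 ^ (b : ℝ) := Real.rpow_pos_of_pos (by norm_num) _
    calc (q : ℝ) * (L / (q : ℝ) ^ b) = ((q * L : ℕ) : ℝ) / (q : ℝ) ^ b := by
          push_cast
          ring
      _ ≤ (2 : ℝ) ^ ((q * L : ℕ) : ℝ) / (2 : ℝ) ^ (b : ℝ) := by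
          apply div_le_div₀ (Real.rpow_nonneg (by norm_num) _) h1 h3 h2
      _ = (2 : ℝ) ^ (((q * L : ℕ) : ℝ) - b) := by
          rw [← Real.rpow_sub (by norm_num)]
      _ ≤ _ := by
          apply Real.rpow_le_rpow_of_exponent_le (by norm_num)
          have h4 : (a : ℝ) ≤ (a : ℝ) ^ s := by
            calc (a : ℝ) = (a : ℝ) ^ 1 := (pow_one _).symm
              _ ≤ (a : ℝ) ^ s := pow_le_pow_right₀ (by exact_mod_cast ha1) (by omega)
          have h5 : ((2 * G * (q * L + 1) : ℕ) : ℝ) ≤ a := by exact_mod_cast ha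
          have h6 : ((q * L : ℕ) : ℝ) + 1 ≤ (a : ℝ) ^ s / (2 * G) := by
            rw [le_div_iff₀ (by positivity)]
            push_cast at h5 ⊢
            linarith
          have h7 : (a : ℝ) ^ s / G = 2 * ((a : ℝ) ^ s / (2 * G)) := by
            field_simp
          have h8 : 1 / (2 * (G : ℝ)) * (a : ℝ) ^ s = (a : ℝ) ^ s / (2 * G) := by ring
          rw [h8]
          linarith
  have hqb : (0 : ℝ) < (q : ℝ) ^ b := by positivity
  have hη1 : (q : ℝ) * (L / (q : ℝ) ^ b) ≤ 1 :=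
    herr.trans (Real.rpow_le_one_of_one_le_of_nonpos (by norm_num) (by
      have : (0 : ℝ) ≤ 1 / (2 * (G : ℝ)) * (a : ℝ) ^ s := by positivity
      linarith))
  have hL1 : 1 ≤ L := by
    rw [hL]
    have : 1 ≤ 4 * K := by omega
    nlinarith
  have hL0 : (0 : ℝ) < (L : ℝ) := by exact_mod_cast hL1
  set η : ℝ := L / (q : ℝ) ^ b with hη
  have hη0 : 0 < η := by positivity
  have hη2 : η ≤ 2 := by nlinarith
  set t : ℕ := q ^ (2 * b) with ht
  have ht1 : 1 ≤ t := Nat.one_le_pow _ _ (by omega)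
  obtain ⟨D, hD1, hD2⟩ := exists_random (V := Fin t) (s := s) (q := q) (a := a) (by omega)
    hη0 hη2 (by rw [Fintype.card_fin]; exact ht1) (by
      rw [Fintype.card_fin, ht, hη]
      push_cast
      have h1 : ((L : ℝ) / (q : ℝ) ^ b) ^ 2 * (q : ℝ) ^ (2 * b) = (L : ℝ) ^ 2 := by
        rw [pow_mul' (q : ℝ) 2 b]
        field_simp
      rw [h1, hL]
      push_cast
      have h2 : (1 : ℝ) ≤ (K : ℝ) := by exact_mod_cast hK1
      have h3 : (1 : ℝ) ≤ (s : ℝ) + 1 + 4 * q := by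
        have : (0 : ℝ) ≤ (s : ℝ) := Nat.cast_nonneg _
        linarith
      have h4 : ((s : ℝ) + 1) ^ (s + 1) = (K : ℝ) := by
        rw [hK]
        push_cast
        rfl
      rw [h4]
      have h5 : (4 * (K : ℝ) * ((s : ℝ) + 1 + 4 * q)) ^ 2 =
          16 * K * ((s : ℝ) + 1 + 4 * q) * (K * ((s : ℝ) + 1 + 4 * q)) := by ring
      rw [h5]
      have h6 : (1 : ℝ) ≤ K * ((s : ℝ) + 1 + 4 * q) := by nlinarith
      have h7 : (0 : ℝ) ≤ 16 * K * ((s : ℝ) + 1 + 4 * q) := by positivity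
      nlinarith) (by omega) (by
      rw [Fintype.card_fin, ht, ← pow_mul]
      calc 2 * q * q ^ (2 * b * a) ≤ q * q * q ^ (2 * b * a) := by
            apply Nat.mul_le_mul_right
            exact Nat.mul_le_mul_right _ hq
        _ = q ^ (2 * b * a + 2) := by ring
        _ ≤ q ^ (a.choose (s + 1)) := by
            apply Nat.pow_le_pow_right (by omega)
            have : 2 * b * a = 2 * a * b := by ring
            omega)
  -- the composition
  have hab' : (⟨0, by omega⟩ : Fin q) ≠ ⟨1, by omega⟩ := by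
    intro h
    have := congrArg Fin.val h
    simp at this
  set cc : Finset (Fin t × Fin M) → Fin q := comp s D c₀ ⟨0, by omega⟩ ⟨1, by omega⟩ with hcc
  let e : Fin t × Fin M ≃ Fin (t * M) := finProdFinEquiv
  refine ⟨t * M, ?_, move e cc, ?_, ?_⟩
  · calc M = 1 * M := (one_mul M).symm
      _ ≤ t * M := Nat.mul_le_mul_right _ ht1
  · intro S hS hH
    have h1 := hom_comp hs2 hab' hD2 hc₀ _ (hom_move e hH)
    rw [card_map] at h1
    omega
  · have h1 : Quasirandom (s + 1) (t * M) q (move e cc) (q * η) :=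
      quasirandom_of_rich (by omega) hη0.le (Nat.mul_pos ht1 hM)
        (fun i => rich_move e (rich_comp (hD1 i)))
    intro i B hB
    refine (h1 i B hB).trans ?_
    exact mul_le_mul_of_nonneg_right herr (by positivity)

end Pool.Agent.T2H15.QR
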