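import Pool.Agent.T2H15.QR.Defs

/-! Quasirandom colourings are universal. -/

set_option autoImplicit false

namespace Pool.Agent.T2H15.QR

open Finset

theorem hnum {R n q : ℕ} (hn : 1 ≤ n) (hq : 1 ≤ q) {M η lam : ℝ}
    (hM : M = 4 * ((R : ℝ) + 1) * (n : ℝ) ^ (R + 2) * (q : ℝ) ^ (n ^ R))
    (hη : η = 1 / M ^ (R + 1)) (hlam : lam = n / M) :
    ∀ i < n, (R : ℝ) * (n : ℝ) ^ R * lam + η * ((1 + i) / lam) ^ R < (1 / (q : ℝ)) ^ (i.choose R) := by
  intro i hi
  have hn' : (1 : ℝ) ≤ (n : ℝ) := by exact_mod_cast hn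
  have hq' : (1 : ℝ) ≤ (q : ℝ) := by exact_mod_cast hq
  have hn0 : (0 : ℝ) < (n : ℝ) := by linarith
  have hq0 : (0 : ℝ) < (q : ℝ) := by linarith
  have hR0 : (0 : ℝ) ≤ (R : ℝ) := Nat.cast_nonneg _
  set Q : ℝ := (q : ℝ) ^ (n ^ R) with hQ
  have hQ1 : 1 ≤ Q := one_le_pow₀ hq'
  have hQ0 : 0 < Q := by linarith
  have hM0 : 0 < M := by
    rw [hM]
    positivity
  have hMQ : 4 * Q ≤ M := by
    rw [hM]
    have h1 : (1 : ℝ) ≤ (n : ℝ) ^ (R + 2) := one_le_pow₀ hn'
    have h2 : 1 ≤ ((R : ℝ) + 1) * (n : ℝ) ^ (R + 2) := by nlinarith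
    nlinarith
  have h1 : 1 / Q ≤ (1 / (q : ℝ)) ^ (i.choose R) := by
    rw [one_div_pow]
    apply one_div_le_one_div_of_le (by positivity)
    apply pow_le_pow_right₀ hq'
    calc i.choose R ≤ i ^ R := Nat.choose_le_pow _ _
      _ ≤ n ^ R := Nat.pow_le_pow_left hi.le _
  have h2 : (R : ℝ) * (n : ℝ) ^ R * lam ≤ 1 / (4 * Q) := by
    rw [hlam, hM, le_div_iff₀ (by positivity), ← mul_div_assoc, div_mul_eq_mul_div,
      div_le_iff₀ (by positivity), one_mul]
    have h3 : (n : ℝ) ^ (R + 1) ≤ (n : ℝ) ^ (R + 2) := pow_le_pow_right₀ hn' (by omega)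
    calc (R : ℝ) * (n : ℝ) ^ R * n * (4 * Q) = 4 * Q * (R * (n : ℝ) ^ (R + 1)) := by ring
      _ ≤ 4 * Q * (((R : ℝ) + 1) * (n : ℝ) ^ (R + 2)) := by
          apply mul_le_mul_of_nonneg_left _ (by positivity)
          apply mul_le_mul (by linarith) h3 (by positivity) (by positivity)
      _ = 4 * ((R : ℝ) + 1) * (n : ℝ) ^ (R + 2) * Q := by ring
  have h3 : η * ((1 + i) / lam) ^ R ≤ 1 / (4 * Q) := by
    have h4 : (1 + (i : ℝ)) / lam ≤ M := by
      rw [hlam, div_div_eq_mul_div, div_le_iff₀ hn0]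
      have : (1 : ℝ) + i ≤ n := by
        have : i + 1 ≤ n := hi
        have : ((i + 1 : ℕ) : ℝ) ≤ n := by exact_mod_cast this
        push_cast at this
        linarith
      nlinarith
    have hlam0 : 0 < lam := by
      rw [hlam]
      positivity
    have h5 : ((1 + (i : ℝ)) / lam) ^ R ≤ M ^ R := pow_le_pow_left₀ (by positivity) h4 _
    calc η * ((1 + i) / lam) ^ R ≤ η * M ^ R := by
          apply mul_le_mul_of_nonneg_left h5
          rw [hη]
          positivity
      _ = 1 / M := by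
          rw [hη, pow_succ]
          field_simp
      _ ≤ 1 / (4 * Q) := one_div_le_one_div_of_le (by positivity) hMQ
  have h4 : 1 / (4 * Q) + 1 / (4 * Q) < 1 / Q := by
    rw [← two_mul, mul_one_div, div_lt_div_iff₀ (by positivity) hQ0]
    linarith
  linarith

/-- **Universality**, with an explicit error. -/
theorem universal' {R q n N : ℕ} (hR : 1 ≤ R) (hq : 1 ≤ q) (hn : R + 1 ≤ n) (hN : 1 ≤ N)
    (c : Finset (Fin N) → Fin q)
    (h : ∀ i, Rich (Col R c i) (1 / q)
      (1 / (4 * ((R : ℝ) + 1) * (n : ℝ) ^ (R + 2) * (q : ℝ) ^ (n ^ R)) ^ (R + 1)))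
    (H : Finset (Fin n) → Fin q) :
    ∃ f : Fin n → Fin N, Function.Injective f ∧
      ∀ A : Finset (Fin n), A.card = R + 1 → c (A.image f) = H A := by
  classical
  have hn1 : 1 ≤ n := by omega
  have hn' : (1 : ℝ) ≤ (n : ℝ) := by exact_mod_cast hn1
  have hq' : (1 : ℝ) ≤ (q : ℝ) := by exact_mod_cast hq
  set M : ℝ := 4 * ((R : ℝ) + 1) * (n : ℝ) ^ (R + 2) * (q : ℝ) ^ (n ^ R) with hM
  have hM0 : 0 < M := by
    rw [hM]
    positivity
  set η : ℝ := 1 / M ^ (R + 1) with hη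
  set lam : ℝ := n / M with hlam
  have hη0 : 0 < η := by positivity
  have hlam0 : 0 < lam := by positivity
  let H' : Finset ℕ → Fin q := fun A => H (univ.filter fun k : Fin n => (k : ℕ) ∈ A)
  let E : Sys (Fin N) := fun s J w => s = R → Col s c (H' (univ.image J)) w
  have hE : RichSys E R n 0 (1 / q) η lam := by
    intro s hs J hJ hJn
    rcases Nat.lt_or_ge s R with h1 | h1
    · obtain ⟨e, he⟩ : ∃ e, R - s = e + 1 := ⟨R - s - 1, by omega⟩
      have h2 : E s J = fun _ => True := by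
        funext w
        exact eq_true (fun h3 => absurd h3 (by omega))
      rw [he, h2, Nat.choose_zero_succ, pow_zero]
      exact rich_true (by positivity)
    · have h2 : s = R := le_antisymm hs h1
      subst h2
      have h3 : E s J = Col s c (H' (univ.image J)) := by
        funext w
        exact propext ⟨fun h4 => h4 rfl, fun h4 _ => h4⟩
      rw [h3, Nat.sub_self, Nat.choose_zero_right, pow_one, pow_zero, mul_one]
      exact h _
  obtain ⟨v, hv⟩ := embed R n (1 / q) η lam (by positivity)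
    (by rw [div_le_one (by linarith)]; exact hq') hη0 hlam0 (hnum hn1 hq hM hη hlam)
    (by rw [Fintype.card_fin]; exact hN) n 0 (by omega) E hE
  have key : ∀ A : Finset (Fin n), ∀ hA : A.card = R + 1,
      Function.Injective (fun a : Fin (R + 1) => v (A.orderEmbOfFin hA a)) ∧
        c (A.image fun k : Fin n => v k) = H A := by
    intro A hA
    have h1 := hv R le_rfl (fun a => ((A.orderEmbOfFin hA a : Fin n) : ℕ))
      (fun a b hab => (A.orderEmbOfFin hA).strictMono hab) (fun a => (A.orderEmbOfFin hA a).2) rfl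
    have hA' : univ.image (fun a => A.orderEmbOfFin hA a) = A := by
      have := A.image_orderEmbOfFin_univ hA
      exact this
    have h2 : univ.image (v ∘ fun a => ((A.orderEmbOfFin hA a : Fin n) : ℕ)) =
        A.image fun k : Fin n => v k := by
      conv_rhs => rw [← hA', image_image]
      rfl
    have h3 : H' (univ.image fun a => ((A.orderEmbOfFin hA a : Fin n) : ℕ)) = H A := by
      show H _ = H A
      congr 1
      ext k
      simp only [mem_filter, mem_univ, true_and, mem_image]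
      constructor
      · rintro ⟨a, ha⟩
        have : A.orderEmbOfFin hA a = k := Fin.ext ha
        rw [← this]
        exact A.orderEmbOfFin_mem hA a
      · intro hk
        rw [← hA'] at hk
        obtain ⟨a, _, ha⟩ := mem_image.1 hk
        exact ⟨a, by rw [ha]⟩
    refine ⟨h1.1, ?_⟩
    rw [← h2, ← h3]
    exact h1.2
  refine ⟨fun k : Fin n => v k, ?_, fun A hA => (key A hA).2⟩
  intro a b hab
  by_contra hne
  obtain ⟨A, hA1, _, hA2⟩ := exists_subsuperset_card_eq (s := ({a, b} : Finset (Fin n)))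
    (t := univ) (n := R + 1) (subset_univ _) (by rw [card_pair hne]; omega)
    (by rw [card_univ, Fintype.card_fin]; exact hn)
  have h1 := (key A hA2).1
  have hA' := A.image_orderEmbOfFin_univ hA2
  have ha : a ∈ A := hA1 (mem_insert_self _ _)
  have hb : b ∈ A := hA1 (mem_insert_of_mem (mem_singleton_self _))
  rw [← hA'] at ha hb
  obtain ⟨a', _, ha'⟩ := mem_image.1 ha
  obtain ⟨b', _, hb'⟩ := mem_image.1 hb
  apply hne
  have h2 : a' = b' := by
    apply h1
    show v _ = v _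
    rw [ha', hb']
    exact hab
  rw [← ha', ← hb', h2]

/-- the explicit error is larger than `1 / q ^ (7 r ^ 2 n ^ (r - 1))` -/
theorem error_le {R q n : ℕ} (hR : 1 ≤ R) (hq : 2 ≤ q) (hn : 1 ≤ n) :
    (1 : ℝ) / (q : ℝ) ^ (7 * (R + 1) ^ 2 * n ^ R) ≤
      1 / (4 * ((R : ℝ) + 1) * (n : ℝ) ^ (R + 2) * (q : ℝ) ^ (n ^ R)) ^ (R + 1) := by
  have hq0 : (0 : ℝ) < (q : ℝ) := by
    have : 0 < q := by omega
    exact_mod_cast this
  have hn0 : (0 : ℝ) < (n : ℝ) := by exact_mod_cast hn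
  apply one_div_le_one_div_of_le (by positivity)
  have h1 : (4 * (R + 1) * n ^ (R + 2) * q ^ (n ^ R)) ^ (R + 1) ≤
      q ^ (7 * (R + 1) ^ 2 * n ^ R) := by
    have hq2 : ∀ k, 2 ^ k ≤ q ^ k := fun k => Nat.pow_le_pow_left hq k
    have e1 : 4 * (R + 1) ≤ q ^ (R + 2) := by
      have h2 : R + 1 ≤ 2 ^ R := Nat.lt_two_pow_self
      calc 4 * (R + 1) ≤ 4 * 2 ^ R := Nat.mul_le_mul_left _ h2
        _ = 2 ^ (R + 2) := by ring
        _ ≤ q ^ (R + 2) := hq2 _
    have e2 : n ^ (R + 2) ≤ q ^ (n * (R + 2)) := by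
      rw [pow_mul]
      apply Nat.pow_le_pow_left
      exact Nat.lt_two_pow_self.le.trans (hq2 n)
    have e3 : n ≤ n ^ R := by
      calc n = n ^ 1 := (pow_one n).symm
        _ ≤ n ^ R := Nat.pow_le_pow_right hn hR
    have e4 : 1 ≤ n ^ R := Nat.one_le_pow _ _ hn
    have e5 : 4 * (R + 1) * n ^ (R + 2) * q ^ (n ^ R) ≤ q ^ ((R + 2) + n * (R + 2) + n ^ R) := by
      have e0 : q ^ ((R + 2) + n * (R + 2) + n ^ R) =
          q ^ (R + 2) * q ^ (n * (R + 2)) * q ^ (n ^ R) := by rw [pow_add, pow_add]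
      rw [e0]
      exact Nat.mul_le_mul_right _ (Nat.mul_le_mul e1 e2)
    refine (Nat.pow_le_pow_left e5 _).trans ?_
    rw [← pow_mul]
    apply Nat.pow_le_pow_right (by omega)
    have e6 : (R + 2) + n * (R + 2) + n ^ R ≤ (2 * (R + 2) + 1) * n ^ R := by
      have : n * (R + 2) ≤ n ^ R * (R + 2) := Nat.mul_le_mul_right _ e3
      have : (R + 2) * 1 ≤ (R + 2) * n ^ R := Nat.mul_le_mul_left _ e4
      nlinarith
    calc ((R + 2) + n * (R + 2) + n ^ R) * (R + 1) ≤ ((2 * (R + 2) + 1) * n ^ R) * (R + 1) :=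
          Nat.mul_le_mul_right _ e6
      _ = (2 * (R + 2) + 1) * (R + 1) * n ^ R := by ring
      _ ≤ 7 * (R + 1) ^ 2 * n ^ R := by
          apply Nat.mul_le_mul_right
          nlinarith
  exact_mod_cast h1

/-- **Universality.** -/
theorem universal {r q n N : ℕ} (hr : 2 ≤ r) (hq : 2 ≤ q) (hn : r ≤ n) (hN : 1 ≤ N)
    (c : Finset (Fin N) → Fin q)
    (h : Quasirandom r N q c (1 / (q : ℝ) ^ (7 * r ^ 2 * n ^ (r - 1))))
    (H : Finset (Fin n) → Fin q) :
    ∃ f : Fin n → Fin N, Function.Injective f ∧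
      ∀ A : Finset (Fin n), A.card = r → c (A.image f) = H A := by
  obtain ⟨R, rfl⟩ : ∃ R, r = R + 1 := ⟨r - 1, by omega⟩
  rw [Nat.add_sub_cancel] at h
  exact universal' (by omega) (by omega) hn hN c
    (fun i => (h.rich i).mono (error_le (by omega) hq (by omega))) H

end Pool.Agent.T2H15.QR
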